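import Pool.Agent.MP_ea150c_mp.H20.SpecR

/-! Kronecker's criterion for linear recurrence. -/

namespace Pool.Agent.MP_ea150c_mp.H20

open Finset Polynomial

/-- The rows of the Hankel matrix of size `m` at `n` are dependent. -/
def Dep (c : ℕ → ℚ) (n m : ℕ) : Prop :=
  ∃ a : ℕ → ℚ, (∃ i < m, a i ≠ 0) ∧ ∀ j < m, ∑ i ∈ range m, a i * c (n + j + i) = 0

theorem dep_cut {c a : ℕ → ℚ} {n m : ℕ} (h0 : a m = 0) (h1 : ∃ i < m + 1, a i ≠ 0)
    (h2 : ∀ j < m, ∑ i ∈ range (m + 1), a i * c (n + j + i) = 0) : Dep c n m := by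
  obtain ⟨i, hi, ha⟩ := h1
  refine ⟨a, ⟨i, lt_of_le_of_ne (by omega) fun h => ha (h ▸ h0), ha⟩, fun j hj => ?_⟩
  simpa [sum_range_succ, h0] using h2 j hj

theorem dep_step {c : ℕ → ℚ} {n m : ℕ} (h1 : Dep c n (m + 1)) (h2 : Dep c n m) :
    Dep c (n + 1) m := by
  obtain ⟨b, b1, b2⟩ := h1
  obtain ⟨a, a1, a2⟩ := h2
  by_cases h : ∑ i ∈ range m, a i * c (n + m + i) = 0
  · refine ⟨a, a1, fun j hj => ?_⟩
    rw [add_assoc n, add_comm 1 j]
    rcases Nat.lt_or_eq_of_le (Nat.succ_le_of_lt hj) with e | e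
    · exact a2 _ e
    · rw [show j + 1 = m from e]; exact h
  · have h3 : ∑ l ∈ range (m + 1), b l * ∑ i ∈ range m, a i * c (n + l + i) = 0 := by
      simp only [mul_sum]
      rw [sum_comm]
      refine sum_eq_zero fun i hi => ?_
      have h4 := congrArg (a i * ·) (b2 i (by have := mem_range.1 hi; omega))
      simp only [mul_sum, mul_zero] at h4
      rw [← h4]
      exact sum_congr rfl fun l _ => by rw [add_right_comm]; ring
    rw [sum_range_succ, sum_eq_zero fun l hl => by rw [a2 l (mem_range.1 hl), mul_zero],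
      zero_add] at h3
    refine dep_cut ((mul_eq_zero.1 h3).resolve_right h) b1 fun j hj => ?_
    rw [add_assoc n, add_comm 1 j]
    exact b2 _ (by omega)

theorem dep_rec (c : ℕ → ℚ) (m : ℕ) : ∀ n₀, (∀ n, n₀ ≤ n → Dep c n m) →
    ∃ (a : ℕ → ℚ) (r k₀ : ℕ), (∃ i < r, a i ≠ 0) ∧
      ∀ k, k₀ ≤ k → ∑ i ∈ range r, a i * c (k + i) = 0 := by
  induction m with
  | zero => intro n₀ h; obtain ⟨a, ⟨i, hi, -⟩, -⟩ := h n₀ le_rfl; omega
  | succ m ih =>
    intro n₀ h
    by_cases h1 : ∃ n₁, n₀ ≤ n₁ ∧ Dep c n₁ m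
    · obtain ⟨n₁, h2, h3⟩ := h1
      exact ih n₁ fun n hn => Nat.le_induction h3
        (fun n hn h4 => dep_step (h n (by omega)) h4) n hn
    · push Not at h1
      obtain ⟨a, a1, a2⟩ := h n₀ le_rfl
      have h2 : ∀ n, n₀ ≤ n → ∀ j < m + 1, ∑ i ∈ range (m + 1), a i * c (n + j + i) = 0 := by
        refine Nat.le_induction a2 fun n hn h3 j hj => ?_
        obtain ⟨b, b1, b2⟩ := h (n + 1) (by omega)
        have hb : b m ≠ 0 := fun e =>
          h1 (n + 1) (by omega) (dep_cut e b1 fun j hj => b2 j (by omega))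
        have h4 : ∀ i < m + 1, b m * a i - a m * b i = 0 := by
          by_contra h5
          push Not at h5
          refine h1 (n + 1) (by omega) (dep_cut (a := fun i => b m * a i - a m * b i)
            (by ring) h5 fun l hl => ?_)
          have h6 := h3 (l + 1) (by omega)
          rw [add_comm l 1, ← add_assoc] at h6
          simp only [sub_mul, mul_assoc, sum_sub_distrib, ← mul_sum, h6, b2 l (by omega), mul_zero,
            sub_self]
        refine (mul_eq_zero.1 ?_).resolve_left hb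
        rw [← mul_zero (a m), ← b2 j hj, mul_sum, mul_sum]
        exact sum_congr rfl fun i hi => by
          linear_combination c (n + 1 + j + i) * h4 i (mem_range.1 hi)
      exact ⟨a, m + 1, n₀, a1, fun k hk => h2 k hk 0 (by omega)⟩

theorem sKron : SKron := by
  intro c m n₀ h
  obtain ⟨a, r, k₀, ⟨i, hi, ha⟩, h1⟩ := dep_rec (fun n => (c n : ℚ)) m n₀ fun n hn => by
    have h1 : (Matrix.of fun i j : Fin m => (c (n + i + j) : ℚ)).det = 0 := by
      have h2 := (Int.castRingHom ℚ).map_det (Matrix.of fun i j : Fin m => c (n + i + j))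
      rw [h n hn, map_zero] at h2
      exact h2.symm
    obtain ⟨v, hv, h2⟩ := Matrix.exists_mulVec_eq_zero_iff.2 h1
    obtain ⟨i, hi⟩ := Function.ne_iff.1 hv
    refine ⟨fun i => if h : i < m then v ⟨i, h⟩ else 0, ⟨i, i.2, by simpa using hi⟩, fun j hj => ?_⟩
    have h3 := congrFun h2 ⟨j, hj⟩
    rw [sum_range]
    simpa [Matrix.mulVec, dotProduct, mul_comm] using h3
  have h2 : ∀ l, (∑ j ∈ range r, monomial j (a j)).coeff l = if l < r then a l else 0 := fun l => by
    simp [coeff_monomial]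
  refine ⟨∑ j ∈ range r, monomial j (a j), k₀, fun e => ha ?_, fun k hk => ?_⟩
  · simpa [e, hi] using (h2 i).symm
  · rw [sum_eq_of_subset (s := range r) _ (by simp) fun l hl => by
      by_contra h3
      exact mem_support_iff.1 hl (by rw [h2, if_neg (by simpa using h3)]), ← h1 k hk]
    exact sum_congr rfl fun l hl => by rw [h2, if_pos (mem_range.1 hl)]

end Pool.Agent.MP_ea150c_mp.H20
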