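import Pool.Agent.MP_ea150c_mp.H49.Frame

/-! Rationality of trace sequences and the unit root argument: statements. -/

namespace Pool.Agent.MP_ea150c_mp.H20

open Polynomial

noncomputable section

/-- The algebraic closure of the `p`-adic numbers. -/
abbrev Kp (p : ℕ) [Fact p.Prime] : Type := PadicAlgCl p

/-- The inclusion of the `p`-adic integers. -/
abbrev io (p : ℕ) [Fact p.Prime] : ℤ_[p] →+* Kp p := algebraMap ℤ_[p] (Kp p)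

/-- Power sums of a multiset. -/
def ps {K : Type} [CommSemiring K] (s : Multiset K) (k : ℕ) : K := (s.map (· ^ k)).sum

/-- The sequence eventually satisfies a linear recurrence over the rationals. -/
def Rec (c : ℕ → ℤ) : Prop :=
  ∃ (μ : ℚ[X]) (k₀ : ℕ), μ ≠ 0 ∧ ∀ k, k₀ ≤ k → (μ.sum fun j a => a * (c (k + j) : ℚ)) = 0

section Traces
variable (p : ℕ) [Fact p.Prime]

/-- Traces of the powers of a matrix with at most `d H` rows of weight at most `H`. -/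
def Tr (d : ℕ → ℕ) (t : ℕ → ℤ_[p]) : Prop :=
  ∃ (ι : Type) (_ : Fintype ι) (_ : DecidableEq ι) (M : Matrix ι ι ℤ_[p]) (w : ι → ℕ),
    (∀ i j, (p : ℤ_[p]) ^ w i ∣ M i j) ∧
    (∀ H, (Finset.univ.filter fun i => w i ≤ H).card ≤ d H) ∧
    ∀ k, 1 ≤ k → t k = (M ^ k).trace

/-- Families, indexed by the precision, of differences of traces with one profile. -/
def MerF (t : ℕ → ℕ → ℤ_[p]) : Prop :=
  ∃ d : ℕ → ℕ, ∀ S, ∃ a b, Tr p d a ∧ Tr p d b ∧ ∀ k, 1 ≤ k → t S k = a k - b k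

/-- Sequences that are approximated by such a family. -/
def Mer (c : ℕ → ℤ_[p]) : Prop :=
  ∃ t, MerF p t ∧ ∀ S k, 1 ≤ k → (p : ℤ_[p]) ^ S ∣ c k - t S k

/-- The limit form of the gap condition. -/
def GapL (T : ℕ → ℤ_[p]) : Prop :=
  ∃ (d : ℕ) (u : ℤ_[p]) (Λ : Matrix (Fin d) (Fin d) ℤ_[p]), ∀ k, 1 ≤ k →
    (p : ℤ_[p]) ^ (k + k / (d + 1)) ∣ T k - (u ^ k - (p : ℤ_[p]) ^ k * (Λ ^ k).trace)

/-- The unit root is algebraic and its other conjugates have slope greater than one. -/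
def Concl (T : ℕ → ℤ) : Prop :=
  ∃ u : ℤ_[p], IsUnit u ∧ IsAlgebraic ℚ (u : ℚ_[p]) ∧
    (∀ k, 1 ≤ k → (p : ℤ_[p]) ^ k ∣ (T k : ℤ_[p]) - u ^ k) ∧
    ∀ γ : PadicAlgCl p, aeval γ (minpoly ℚ (u : ℚ_[p])) = 0 →
      γ ≠ algebraMap ℚ_[p] (PadicAlgCl p) u → ‖γ‖ < (p : ℝ)⁻¹

end Traces

/-- Traces of powers are power sums of eigenvalues. -/
def SPow : Prop := ∀ (K : Type) [Field K] [IsAlgClosed K] (ι : Type) [Fintype ι] [DecidableEq ι]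
  (M : Matrix ι ι K) (k : ℕ), (M ^ k).trace = ps M.charpoly.roots k

/-- The Newton polygon lies above the row polygon. -/
def SGN : Prop := ∀ (p : ℕ) [Fact p.Prime] (ι : Type) [Fintype ι] [DecidableEq ι]
  (M : Matrix ι ι (Kp p)) (r c : ι → ℝ) (R : ℝ), 0 < R → (∀ i, 0 < c i) →
  (∀ i j, ‖M i j‖ * c i ≤ r i * c j) →
  (M.charpoly.roots.map fun γ => max 1 (‖γ‖ * R)).prod ≤ ∏ i, max 1 (r i * R)

/-- Kronecker's criterion. -/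
def SKron : Prop := ∀ (c : ℕ → ℤ) (m n₀ : ℕ),
  (∀ n, n₀ ≤ n → (Matrix.of fun i j : Fin m => c (n + i + j)).det = 0) → Rec c

open Classical in
/-- Vanishing of Hankel determinants. -/
def SHank : Prop := ∀ (p : ℕ) [Fact p.Prime] (c : ℕ → ℤ) (C D : ℕ),
  (∀ k, 1 ≤ k → |c k| ≤ (p : ℤ) ^ (C * k)) →
  (∀ S : ℕ, ∃ s t : Multiset (Kp p), (∀ γ ∈ s + t, ‖γ‖ ≤ 1) ∧
    ((s + t).filter fun γ => ((p : ℝ) ^ (C + 1))⁻¹ < ‖γ‖).card ≤ D ∧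
    ∀ k, 1 ≤ k → ‖(c k : Kp p) - (ps s k - ps t k)‖ ≤ ((p : ℝ) ^ S)⁻¹) →
  ∃ m n₀ : ℕ, ∀ n, n₀ ≤ n → (Matrix.of fun i j : Fin m => c (n + i + j)).det = 0

/-- Closure properties of families and of approximated sequences. -/
def SVT : Prop := ∀ (p : ℕ) [Fact p.Prime],
  (∀ d t, (∀ S, Tr p d (t S)) → MerF p t) ∧
  (∀ a b, MerF p a → (∀ S k, 1 ≤ k → b S k = a S k) → MerF p b) ∧
  (∀ a b, MerF p a → MerF p b → MerF p fun S k => a S k + b S k) ∧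
  (∀ a (x : ℤ_[p]) (f : ℤ[X]), MerF p a →
    MerF p fun S k => x ^ k * (aeval ((p : ℤ_[p]) ^ k) f * a S k)) ∧
  (∀ (J : Type) (s : Finset J) (a : J → ℕ → ℕ → ℤ_[p]), (∀ j ∈ s, MerF p (a j)) →
    MerF p fun S k => ∑ j ∈ s, a j S k) ∧
  (∀ (J : Type) (s : Finset J) (e : J → ℤ) (c : J → ℕ → ℤ_[p]), (∀ j ∈ s, Mer p (c j)) →
    Mer p fun k => ∑ j ∈ s, (e j : ℤ_[p]) * c j k) ∧
  (∀ (x : ℤ_[p]) (c : ℕ → ℤ_[p]), IsUnit x → (Mer p fun k => x ^ k * c k) → Mer p c)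

/-- The theorem of Borel and Dwork for trace sequences. -/
def SRat : Prop := ∀ (p : ℕ) [Fact p.Prime] (c : ℕ → ℤ) (C : ℕ),
  (∀ k, 1 ≤ k → |c k| ≤ (p : ℤ) ^ (C * k)) → (Mer p fun k => (c k : ℤ_[p])) → Rec c

def OfRat : Prop := SPow → SGN → SHank → SKron → SRat

open Classical in
/-- The large roots of a monic polynomial are the eigenvalues of an integral matrix. -/
def SFac : Prop := ∀ (p : ℕ) [Fact p.Prime] (f : ℤ_[p][X]) (r : ℝ), f.Monic →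
  ∃ (e : ℕ) (Λ : Matrix (Fin e) (Fin e) ℤ_[p]),
    (Λ.map (io p)).charpoly.roots = (f.map (io p)).roots.filter fun γ => r < ‖γ‖

/-- Splitting off the unit eigenvalue and the eigenvalues of small slope. -/
def SSplit : Prop := ∀ (p : ℕ) [Fact p.Prime] (ι : Type) [Fintype ι] [DecidableEq ι]
  (M : Matrix ι ι ℤ_[p]),
  (∀ lv : ι → ℕ, (∀ i j, lv i = 0 → lv j = 0 → i = j) → (∀ i j, lv i = 1 → (p : ℤ_[p]) ∣ M i j) →
    (∀ i j, 1 ≤ lv i → (lv j ≤ 1 ∨ 2 ≤ lv i) → (p : ℤ_[p]) ^ 2 ∣ M i j) → IsUnit M.trace →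
    ∃ u : ℤ_[p], ∀ k, 1 ≤ k → (p : ℤ_[p]) ^ (k + k / 2) ∣ (M ^ k).trace - u ^ k) ∧
  (∀ (B : Finset ι) (d : ℕ), B.card ≤ d → (∀ i j, i ∉ B → (p : ℤ_[p]) ∣ M i j) →
    ∃ Λ : Matrix (Fin d) (Fin d) ℤ_[p], ∀ k, 1 ≤ k →
      (p : ℤ_[p]) ^ (k / (d + 1)) ∣ (M ^ k).trace - (Λ ^ k).trace)

def OfSplit : Prop := SPow → SGN → SFac → SSplit

/-- Compactness, and removal of a unit twist. -/
def SCpt : Prop := ∀ (p : ℕ) [Fact p.Prime] (T : ℕ → ℤ_[p]) (x : ℤ_[p]), IsUnit x →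
  (H49.Gap p fun k => x ^ k * T k) → GapL p T

/-- Independence of exponentials up to a small error. -/
def SExp : Prop := ∀ (K : Type) [NormedField K] (A : Finset K) (a : K → K) (C ρ : ℝ) (k₀ : ℕ),
  0 ≤ ρ → (∀ k, k₀ ≤ k → ‖∑ β ∈ A, a β * β ^ k‖ ≤ C * ρ ^ k) → ∀ γ ∈ A, ρ < ‖γ‖ → a γ = 0

/-- Conjugates of a simple dominant root are simple dominant roots. -/
def SConj : Prop := ∀ (K : Type) [NormedField K] [CharZero K] (T : ℕ → ℤ) (u : K)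
  (s : Multiset K) (C ρ : ℝ), Rec T → 0 ≤ ρ → ρ < ‖u‖ → u ∉ s →
  (∀ k, 1 ≤ k → ‖(T k : K) - (u ^ k - ps s k)‖ ≤ C * ρ ^ k) →
  IsAlgebraic ℚ u ∧ ∀ γ : K, aeval γ (minpoly ℚ u) = 0 → γ ≠ u → ‖γ‖ ≤ ρ

def OfConj : Prop := SExp → SConj

/-- The unit root theorem for an abstract sequence. -/
def SUnit : Prop := ∀ (p : ℕ) [Fact p.Prime] (T : ℕ → ℤ), ¬ (p : ℤ) ∣ T 1 → Rec T →
  (GapL p fun k => (T k : ℤ_[p])) → Concl p T

def OfUnit : Prop := SPow → SGN → SConj → SUnit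

/-- No match with the power sums of the roots of a quadratic polynomial. -/
def SCor : Prop := ∀ (p : ℕ) [Fact p.Prime] (T s : ℕ → ℤ) (a d : ℤ), s 0 = 2 → s 1 = a →
  (∀ k, s (k + 2) = a * s (k + 1) - d * s k) → ¬ (p : ℤ) ^ 2 ∣ d →
  ((p : ℤ) ∣ d → Irreducible (X ^ 2 - C (a : ℚ) * X + C (d : ℚ))) → Concl p T →
  ¬ ∀ k, 1 ≤ k → (p : ℤ) ^ k ∣ T k - s k

/-- No match with the power sums of Weil numbers of weight one, or of at least two Weil numbers of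
weight zero. -/
def SCorW : Prop := ∀ (p : ℕ) [Fact p.Prime] (T s : ℕ → ℤ) (f : ℤ[X]), f.Monic →
  (∀ k, (s k : ℂ) = ps (f.aroots ℂ) k) →
  ((∀ z ∈ f.aroots ℂ, ‖z‖ ^ 2 = p) ∨ ((∀ z ∈ f.aroots ℂ, ‖z‖ = 1) ∧ f.natDegree ≠ 1)) →
  Concl p T → ¬ ∀ k, 1 ≤ k → (p : ℤ) ^ k ∣ T k - s k

def OfCorW : Prop := SExp → SCorW

end

end Pool.Agent.MP_ea150c_mp.H20
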