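import Pool.Agent.MP_ea150c_mp.H44.Pow
import Pool.Agent.MP_ea150c_mp.H70.GN
import Pool.Agent.MP_ea150c_mp.H19.Hank
import Pool.Agent.MP_ea150c_mp.H59.VT
import Pool.Agent.MP_ea150c_mp.H16.Rat
import Pool.Agent.MP_ea150c_mp.H97.Fac
import Pool.Agent.MP_ea150c_mp.H26.Split
import Pool.Agent.MP_ea150c_mp.H54.Cpt
import Pool.Agent.MP_ea150c_mp.H86.Conj
import Pool.Agent.MP_ea150c_mp.H27.Unit
import Pool.Agent.MP_ea150c_mp.H9.Cor
import Pool.Agent.MP_ea150c_mp.H12.CorW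
import Pool.Agent.MP_ea150c_mp.H94.F1
import Pool.Agent.MP_ea150c_mp.H75.Four
import Pool.Agent.MP_ea150c_mp.H9.Div
import Pool.Agent.MP_ea150c_mp.H22.AbsA
import Pool.Agent.MP_ea150c_mp.H44.Abs
import Pool.Agent.MP_ea150c_mp.H26.Blk
import Pool.Agent.MP_ea150c_mp.H59.Tree
import Pool.Agent.MP_ea150c_mp.H33.MT
import Pool.Agent.MP_ea150c_mp.H16.M
import Pool.Agent.MP_ea150c_mp.H83.Trans
import Pool.Agent.MP_ea150c_mp.H24.Span
import Pool.Agent.MP_ea150c_mp.H29.Q1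
import Pool.Agent.MP_ea150c_mp.H12.Q

/-! The proved statements of the parts R, M and Q, collected. -/

namespace Pool.Agent.MP_ea150c_mp.H20

theorem sRat (h : SKron) : SRat := H16.ofRat H44.sPow H70.sGN H19.sHank h

theorem sSplit : SSplit := H26.ofSplit H44.sPow H70.sGN H97.sFac

theorem sUnit : SUnit := H27.ofUnit H44.sPow H70.sGN (H86.ofConj H86.sExp)

theorem sCorW : SCorW := H12.ofCorW H86.sExp

theorem sM : SM :=
  H16.ofM H9.sDiv (H44.ofAbs (H22.ofAbsA (H75.ofFour H94.sF1) H9.sDiv)) H59.sTree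
    (H33.ofMT H26.sBlk H59.sTree)

theorem sQ : SQ := H12.ofQ H24.sSpan H29.sQ1

end Pool.Agent.MP_ea150c_mp.H20
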