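import Mathlib

/-! Graphs with multiple edges, the graph polynomial and its point counts. -/

namespace Pool.Agent.MP_ea150c_mp.H20

noncomputable section

variable {V E : Type} [Fintype V] [DecidableEq V] [Fintype E] [DecidableEq E] (s t : E → V)

/-- The edges in `T` connect all vertices; the edge `e` has end points `s e` and `t e`. -/
def Conn (T : Finset E) : Prop :=
  ∀ u v : V, Relation.EqvGen (fun a b => ∃ e ∈ T, s e = a ∧ t e = b) u v

/-- Spanning trees: connected spanning subgraphs with one edge less than vertices. -/
def IsTree (T : Finset E) : Prop := Conn s t T ∧ T.card + 1 = Fintype.card V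

open Classical in
/-- The value of the graph polynomial: sum over spanning trees of the product of the other edges. -/
def Psi {R : Type} [CommRing R] (α : E → R) : R :=
  ∑ T ∈ Finset.univ.filter (IsTree s t), ∏ e ∈ Tᶜ, α e

/-- The number of zeros of the graph polynomial in `F^E`. -/
def XG (F : Type) [Field F] : ℕ := Nat.card {α : E → F // Psi s t α = 0}

/-- The integer `[X_G]_q / q^2`, whose residue modulo `q` is the `c_2` invariant. -/
def c2 (F : Type) [Field F] : ℤ := (XG s t F / Nat.card F ^ 2 : ℕ)

/-- The degree of a vertex (a loop counts twice). -/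
def deg (v : V) : ℕ :=
  (Finset.univ.filter fun e => s e = v).card + (Finset.univ.filter fun e => t e = v).card

/-- The period integral converges, the variable of the edge `e₀` being set to one. -/
def Primitive : Prop :=
  ∃ e₀ : E, MeasureTheory.IntegrableOn
    (fun α : {e : E // e ≠ e₀} → ℝ =>
      1 / Psi s t (fun e => if h : e = e₀ then 1 else α ⟨e, h⟩) ^ 2) {α | ∀ e, 0 ≤ α e}

end

end Pool.Agent.MP_ea150c_mp.H20
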