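import Pool.Agent.MP_ea150c_mp.H20.NonG
import Pool.Agent.MP_ea150c_mp.H49.All3
import Pool.Agent.MP_ea150c_mp.H48.SC

/-! The unit root theorem at all primes, and the weights of matching cusp forms. -/

namespace Pool.Agent.MP_ea150c_mp.H20

open Polynomial

variable {V E : Type} [Fintype V] [DecidableEq V] [Fintype E] [DecidableEq E] (s t : E → V)

theorem card_gf (p : ℕ) [Fact p.Prime] (k : ℕ) (hk : 1 ≤ k) [Fintype (GaloisField p k)] :
    Fintype.card (GaloisField p k) = p ^ k := by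
  rw [← Nat.card_eq_fintype_card, GaloisField.card p k (by omega)]

theorem non_unit (h3 : 3 ≤ Fintype.card V) (hc : Conn s t Finset.univ)
    (h4 : ∀ v, deg s t v ≤ 4) (hP : Primitive s t) (p : ℕ) [Fact p.Prime] (hp : 7 ≤ p)
    (hu : (p : ℤ) ∣ c2 s t (ZMod p)) (k : ℕ) (hk : 1 ≤ k) (F : Type) [Field F] [Fintype F]
    (hF : Fintype.card F = p ^ k) : (p : ℤ) ^ k ∣ c2 s t F := by
  have hG := sQ V E s t h3 hc h4 hP
  by_cases h5 : 5 ≤ Fintype.card V
  swap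
  · have h6 := c2_K4 s t hG (by omega) (ZMod p)
    rw [ZMod.card] at h6
    have h7 : (p : ℤ) ∣ 1 := by simpa using (hu.add h6).neg_right
    have := Int.le_of_dvd one_pos h7
    omega
  let _ := fun k => Fintype.ofFinite (GaloisField p k)
  obtain ⟨m, G, g1, g2, g3, g4⟩ := (H83.sTrans V E s t).1 hG h5
  have h1 : ∀ k, 1 ≤ k → (p : ℤ) ^ k ∣ c2 s t (GaloisField p k) +
      (G.model ∅ Finset.univ).Tc (GaloisField p k) := fun k hk => by
    have h2 := c2_Tc G g1 g2 g3 (GaloisField p k) fun R S a b => by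
      rw [card_gf p k hk]
      exact_mod_cast H49.allA0 p hp m E G g1 R S a b k hk _ (card_gf p k hk)
    rw [card_gf p k hk, c2, g4] at h2
    exact_mod_cast h2
  rw [c2_congr s t _ (GaloisField p 1) (by rw [card_gf p 1 le_rfl, pow_one, ZMod.card])] at hu
  rw [c2_congr s t F (GaloisField p k) (by rw [hF, card_gf p k hk])]
  exact (dvd_add_left (sGapN H49.aG2b H49.aV p hp m E G g1 _ (fun k hk => card_gf p k hk)
    ((dvd_add_right hu).1 (by simpa using h1 1 le_rfl)) k hk)).1 (h1 k hk)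

theorem dichotomy (h3 : 3 ≤ Fintype.card V) (hc : Conn s t Finset.univ)
    (h4 : ∀ v, deg s t v ≤ 4) (hP : Primitive s t) (p : ℕ) [Fact p.Prime] (hp : 7 ≤ p) :
    ∃ u : ℤ_[p], (IsUnit u ∨ u = 0) ∧ IsAlgebraic ℚ (u : ℚ_[p]) ∧
      (∀ k, 1 ≤ k → ∀ (F : Type) [Field F] [Fintype F], Fintype.card F = p ^ k →
        (p : ℤ_[p]) ^ k ∣ (c2 s t F : ℤ_[p]) + u ^ k) ∧
      ∀ γ : PadicAlgCl p, aeval γ (minpoly ℚ (u : ℚ_[p])) = 0 →
        γ ≠ algebraMap ℚ_[p] (PadicAlgCl p) u → ‖γ‖ < (p : ℝ)⁻¹ := by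
  by_cases hu : (p : ℤ) ∣ c2 s t (ZMod p)
  · refine ⟨0, Or.inr rfl, by simpa using isAlgebraic_zero, fun k hk F _ _ hF => ?_,
      fun γ h1 h2 => (h2 (by simpa using h1)).elim⟩
    rw [zero_pow (by omega), add_zero]
    exact_mod_cast (Int.castRingHom ℤ_[p]).map_dvd (non_unit s t h3 hc h4 hP p hp hu k hk F hF)
  · obtain ⟨u, u1, u2⟩ := unit_root s t H49.allA0 H49.aSGap h3 hc h4 hP p hp hu
    exact ⟨u, Or.inl u1, u2⟩

theorem no_quad (h3 : 3 ≤ Fintype.card V) (hc : Conn s t Finset.univ)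
    (h4 : ∀ v, deg s t v ≤ 4) (hP : Primitive s t) (p : ℕ) [Fact p.Prime] (hp : 7 ≤ p)
    (S : ℕ → ℤ) (a d : ℤ) (h0 : S 0 = 2) (h1 : S 1 = a)
    (hr : ∀ k, S (k + 2) = a * S (k + 1) - d * S k) (hd : ¬ (p : ℤ) ^ 2 ∣ d)
    (hi : (p : ℤ) ∣ d → Irreducible (X ^ 2 - C (a : ℚ) * X + C (d : ℚ))) :
    ¬ ∀ k, 1 ≤ k → (p : ℤ) ^ k ∣ c2 s t (GaloisField p k) + S k := by
  intro h
  by_cases hu : (p : ℤ) ∣ c2 s t (ZMod p)
  · let _ := fun k => Fintype.ofFinite (GaloisField p k)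
    have h2 : ∀ k, 1 ≤ k → (p : ℤ) ^ k ∣ S k := fun k hk =>
      (dvd_add_right (non_unit s t h3 hc h4 hP p hp hu k hk _ (card_gf p k hk))).1 (h k hk)
    have h5 := h2 1 le_rfl
    have h6 := h2 2 one_le_two
    rw [pow_one, h1] at h5
    rw [hr 0, h0, h1] at h6
    have h7 : (p : ℤ) ^ 2 ∣ d * 2 := by
      have h8 : (p : ℤ) ^ 2 ∣ a * a := by rw [sq]; exact mul_dvd_mul h5 h5
      simpa using dvd_sub h8 h6
    refine hd (IsCoprime.dvd_of_dvd_mul_right (IsCoprime.pow_left ?_) h7)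
    exact Nat.isCoprime_iff_coprime.2 ((Nat.coprime_primes Fact.out Nat.prime_two).2 (by omega))
  · refine H9.sCor p _ S a d h0 h1 hr hd hi
      (concl_prim s t H49.allA0 H49.aSGap h3 hc h4 hP p hp hu) fun k hk => ?_
    rw [← neg_add', dvd_neg]
    exact h k hk

theorem quad_irr (p : ℕ) (hp : p.Prime) (a d : ℤ) (hd : |d| = p) (ha : |a| < p - 1) :
    Irreducible (X ^ 2 - C (a : ℚ) * X + C (d : ℚ)) := by
  have hm : (X ^ 2 - C a * X + C d : ℤ[X]).Monic := by monicity!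
  have hn : (X ^ 2 - C (a : ℚ) * X + C (d : ℚ)).natDegree = 2 := by compute_degree!
  refine irreducible_of_degree_le_three_of_not_isRoot (by rw [hn]; simp) fun x hx => ?_
  have hx' : x ^ 2 - a * x + d = 0 := by simpa using hx
  obtain ⟨r, hr⟩ := IsIntegrallyClosed.isIntegral_iff.1 (show IsIntegral ℤ x from
    ⟨_, hm, by rw [← aeval_def]; simpa using hx'⟩)
  obtain rfl : (r : ℚ) = x := hr
  have h1 : r * (a - r) = d := by
    have : r ^ 2 - a * r + d = 0 := by exact_mod_cast hx'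
    linear_combination -this
  rw [abs_lt] at ha
  have h2 : r.natAbs * (a - r).natAbs = p := by
    rw [← Int.natAbs_mul, h1]
    exact_mod_cast (Int.natCast_natAbs d).trans hd
  rcases (Nat.dvd_prime hp).1 ⟨_, h2.symm⟩ with h | h
  · rw [h, one_mul] at h2
    omega
  · rw [h, Nat.mul_eq_left hp.ne_zero] at h2
    omega

theorem weight (h3 : 3 ≤ Fintype.card V) (hc : Conn s t Finset.univ)
    (h4 : ∀ v, deg s t v ≤ 4) (hP : Primitive s t) (N : ℕ) [NeZero N] (k : ℤ)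
    (f : CuspForm (CongruenceSubgroup.Gamma1 N) k) (χ : DirichletCharacter ℂ N) (B : ℕ)
    (h : ∀ p : ℕ, p.Prime → B < p → ∀ α β : ℂ, α + β = (UpperHalfPlane.qExpansion 1 f).coeff p →
      α * β = χ p * (p : ℂ) ^ (k - 1) → ∀ j, 1 ≤ j → ∀ (F : Type) [Field F] [Fintype F],
      Fintype.card F = p ^ j → ∃ z : ℤ, (c2 s t F : ℂ) + (α ^ j + β ^ j) = (p : ℂ) ^ j * z) :
    3 ≤ k := by
  by_contra hk
  obtain ⟨p, hp, hB, ha⟩ : ∃ p : ℕ, p.Prime ∧ B + N + 7 < p ∧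
      (k = 2 → ‖(UpperHalfPlane.qExpansion 1 f).coeff p‖ < (p : ℝ) - 1) := by
    by_cases h2 : k = 2
    · subst h2
      obtain ⟨p, h⟩ := H48.small_coeff (by simp) f (B + N + 7)
      exact ⟨p, h.1, h.2.1, fun _ => h.2.2⟩
    · obtain ⟨p, h5, h6⟩ := Nat.exists_infinite_primes (B + N + 8)
      exact ⟨p, h6, h5, fun h => absurd h h2⟩
  have : Fact p.Prime := ⟨hp⟩
  let _ := fun k => Fintype.ofFinite (GaloisField p k)
  obtain ⟨α, β, h1, h2⟩ : ∃ α β : ℂ, α + β = (UpperHalfPlane.qExpansion 1 f).coeff p ∧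
      α * β = χ p * (p : ℂ) ^ (k - 1) := by
    obtain ⟨z, hz⟩ := IsAlgClosed.exists_pow_nat_eq
      ((UpperHalfPlane.qExpansion 1 f).coeff p ^ 2 - 4 * (χ p * (p : ℂ) ^ (k - 1))) two_pos
    exact ⟨((UpperHalfPlane.qExpansion 1 f).coeff p + z) / 2,
      ((UpperHalfPlane.qExpansion 1 f).coeff p - z) / 2, by ring,
      by linear_combination (-1 / 4 : ℂ) * hz⟩
  have h5 : ∀ j, ∃ S : ℤ, (S : ℂ) = α ^ j + β ^ j ∧
      (1 ≤ j → (p : ℤ) ^ j ∣ c2 s t (GaloisField p j) + S) := fun j => by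
    rcases Nat.eq_zero_or_pos j with rfl | hj
    · exact ⟨2, by norm_num, by omega⟩
    obtain ⟨z, hz⟩ := h p hp (by omega) α β h1 h2 j hj _ (card_gf p j hj)
    exact ⟨p ^ j * z - c2 s t (GaloisField p j), by push_cast; linear_combination -hz,
      fun _ => ⟨z, by ring⟩⟩
  choose S hS hdv using h5
  have hχ : ‖χ p‖ = 1 := by
    have h6 : IsUnit (p : ZMod N) := (ZMod.isUnit_iff_coprime p N).2
      (hp.coprime_iff_not_dvd.2 fun h => by
        have := Nat.le_of_dvd (NeZero.pos N) h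
        omega)
    exact χ.unit_norm_eq_one h6.unit
  have he : ((S 1 ^ 2 - S 2 : ℤ) : ℂ) = 2 * (α * β) := by
    push_cast
    rw [hS, hS]
    ring
  have hn : ((|S 1 ^ 2 - S 2| : ℤ) : ℝ) = 2 * (p : ℝ) ^ (k - 1) := by
    rw [Int.cast_abs, ← Complex.norm_intCast, he, h2]
    simp [hχ]
  have hp1 : (7 : ℝ) < p := by exact_mod_cast (by omega : 7 < p)
  obtain ⟨d, hd, hd'⟩ : ∃ d : ℤ, S 1 ^ 2 - S 2 = 2 * d ∧ (|d| = 1 ∨ (|d| = p ∧ k = 2)) := by
    rcases lt_trichotomy k 1 with h6 | rfl | h6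
    · have h7 : (p : ℝ) ^ (k - 1) ≤ (p : ℝ) ^ (-1 : ℤ) := zpow_le_zpow_right₀ (by linarith) (by omega)
      have h8 : (0 : ℝ) < (p : ℝ) ^ (k - 1) := by positivity
      have h9 : (p : ℝ) ^ (-1 : ℤ) < 1 / 2 := by
        rw [zpow_neg_one, one_div]
        exact inv_strictAnti₀ two_pos (by linarith)
      have h10 : (0 : ℤ) < |S 1 ^ 2 - S 2| := Int.cast_pos.1 (by linarith : (0 : ℝ) < _)
      have h11 : |S 1 ^ 2 - S 2| < (1 : ℤ) :=
        Int.cast_lt.1 (by rw [hn]; push_cast; linarith : (_ : ℝ) < ((1 : ℤ) : ℝ))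
      omega
    · rw [sub_self, zpow_zero, mul_one] at hn
      have h7 : |S 1 ^ 2 - S 2| = 2 := by exact_mod_cast hn
      rcases abs_eq (by norm_num) |>.1 h7 with h | h
      · exact ⟨1, by omega, Or.inl rfl⟩
      · exact ⟨-1, by omega, Or.inl rfl⟩
    · obtain rfl : k = 2 := by omega
      rw [show (2 : ℤ) - 1 = 1 by norm_num, zpow_one] at hn
      have h7 : |S 1 ^ 2 - S 2| = 2 * p := by exact_mod_cast hn
      rcases abs_eq (by positivity) |>.1 h7 with h | h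
      · exact ⟨p, by omega, Or.inr ⟨by simp, rfl⟩⟩
      · exact ⟨-p, by omega, Or.inr ⟨by simp, rfl⟩⟩
  have hαβ : α * β = d := by
    rw [hd] at he
    push_cast at he
    linear_combination (-1 / 2 : ℂ) * he
  have hp2 : (7 : ℤ) < p := by omega
  refine no_quad s t h3 hc h4 hP p (by omega) S (S 1) d ?_ rfl (fun j => ?_) (fun h6 => ?_)
    (fun h6 => ?_) hdv
  · exact_mod_cast (by rw [hS]; norm_num : (S 0 : ℂ) = 2)
  · have : (S (j + 2) : ℂ) = S 1 * S (j + 1) - d * S j := by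
      rw [hS, hS, hS, hS, ← hαβ]
      ring
    exact_mod_cast this
  · have := Int.le_of_dvd (by omega) ((dvd_abs _ _).2 h6)
    rcases hd' with h | h <;> nlinarith
  · rcases hd' with h | ⟨h, h7⟩
    · have := Int.le_of_dvd (by omega) ((dvd_abs _ _).2 h6)
      omega
    · refine quad_irr p hp _ _ h ?_
      have h8 := ha h7
      rw [← h1, ← pow_one α, ← pow_one β, ← hS, Complex.norm_intCast] at h8
      exact_mod_cast h8

end Pool.Agent.MP_ea150c_mp.H20
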