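import Pool.Agent.MP_ea150c_mp.H20.SpecR
import Pool.Agent.MP_ea150c_mp.H49.SpecK
import Pool.Agent.MP_ea150c_mp.H49.Model

/-! Point counts are approximated by traces, and the counts of a model are recurrent. -/

namespace Pool.Agent.MP_ea150c_mp.H20

open Pool.Agent.MP_ea150c_mp.H49 Polynomial

theorem box_finite {σ ι : Type} [Fintype σ] [Fintype ι] (D L : ℕ) :
    {a : (σ → ℤ) × (ι → ℕ) | (∀ x, 0 ≤ a.1 x) ∧ ∑ x, a.1 x ≤ D * ∑ i, ((a.2 i : ℤ) + 1) ∧
      ∑ i, a.2 i ≤ L}.Finite := by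
  classical
  refine ((Set.Finite.pi' fun _ : σ => Set.finite_Icc (0 : ℤ) (D * (L + Fintype.card ι))).prod
    (Set.Finite.pi' fun _ : ι => Set.finite_Iic L)).subset ?_
  rintro a ⟨h1, h2, h3⟩
  refine ⟨fun x => ⟨h1 x, ?_⟩, fun i => ?_⟩
  · refine (Finset.single_le_sum (fun y _ => h1 y) (Finset.mem_univ x)).trans (h2.trans ?_)
    refine mul_le_mul_of_nonneg_left ?_ (Nat.cast_nonneg _)
    rw [Finset.sum_add_distrib, ← Nat.cast_sum]
    simp only [Finset.sum_const, Finset.card_univ, nsmul_eq_mul, mul_one, add_le_add_iff_right]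
    exact_mod_cast h3
  · exact (Finset.single_le_sum (fun y _ => Nat.zero_le (a.2 y)) (Finset.mem_univ i)).trans h3

theorem lam_unit (h3 : K3) (p : ℕ) [Fact p.Prime] (hp : 7 ≤ p) : IsUnit (lam p) := by
  by_contra h
  have h1 : (p : ℤ_[p]) ∣ lam p :=
    (PadicInt.norm_lt_one_iff_dvd _).1 (PadicInt.not_isUnit_iff.1 h)
  have h2 : (p : ℤ_[p]) ∣ 1 := by simpa using dvd_sub h1 (h3 p hp).1
  exact (PadicInt.prime_p (p := p)).not_dvd_one h2

theorem mer_cnt (hv : SVT) (h3 : K3) (h4 : K4) (hr : KRow) (p : ℕ) [Fact p.Prime] (hp : 7 ≤ p)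
    {σ ι : Type} [Fintype σ] [DecidableEq σ] [Fintype ι] [DecidableEq ι] (tor : σ → Prop)
    (fp : ι → MvPolynomial σ ℤ) (F : ℕ → Type) [∀ k, Field (F k)] [∀ k, Fintype (F k)]
    (hF : ∀ k, 1 ≤ k → Fintype.card (F k) = p ^ k) :
    Mer p fun k => (cnt tor fp (F k) : ℤ_[p]) := by
  classical
  obtain ⟨v1, v2, -, v4, v5, -, v7⟩ := hv p
  choose M hM using h4 p hp
  set D := Finset.univ.sup fun i => (fp i).totalDegree with hD
  have hfin : ∀ S Z, {a | Core (ι := ι) tor D (M S) Z a}.Finite := fun S Z =>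
    (box_finite D (M S)).subset fun a ha => ⟨ha.1, ha.2.2.2.1, ha.2.2.2.2⟩
  have hT : ∀ Z : Finset σ, MerF p fun S k => trk p fp (hfin S Z).toFinset k := fun Z => by
    refine v1 (fun H => (box_finite (σ := σ) (ι := ι) D (2 * H)).toFinset.card) _ fun S => ?_
    refine ⟨(hfin S Z).toFinset, inferInstance, _, Matrix.of fun a b => ent p fp a.1 b.1,
      fun a => nu (∑ i, a.1.2 i), fun a b => hr p hp σ ι fp a.1 b.1, fun H => ?_, fun k _ => rfl⟩
    refine Finset.card_le_card_of_injOn (fun a => a.1) (fun a ha => ?_)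
      fun a _ b _ h => Subtype.ext h
    have h1 := (Set.Finite.mem_toFinset _).1 a.2
    have h2 : nu (∑ i, a.1.2 i) ≤ H := (Finset.mem_filter.1 ha).2
    refine Finset.mem_coe.2 ((Set.Finite.mem_toFinset _).2 ⟨h1.1, h1.2.2.2.1, ?_⟩)
    unfold nu at h2
    beta_reduce
    omega
  refine v7 (lam p ^ Fintype.card ι) _ ((lam_unit h3 p hp).pow _) ⟨fun S k =>
    ∑ Z ∈ (Finset.univ.filter fun x => ¬ tor x).powerset, (1 : ℤ_[p]) ^ k *
      (aeval ((p : ℤ_[p]) ^ k) ((1 - X) ^ Fintype.card ι * (X ^ Z.card *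
        (X - 1) ^ (Fintype.card σ - Z.card)) : ℤ[X]) * trk p fp (hfin S Z).toFinset k),
    v5 _ _ _ fun Z _ => v4 _ 1 _ (hT Z), fun S k hk => ?_⟩
  have h5 := hM S (M S) le_rfl σ ι tor fp D (fun i => Finset.le_sup (f := fun i =>
    (fp i).totalDegree) (Finset.mem_univ i)) (fun Z => (hfin S Z).toFinset)
    (fun Z a => Set.Finite.mem_toFinset _) k hk (F k) (hF k hk)
  rw [Finset.mul_sum, pow_mul] at h5
  refine (dvd_iff_dvd_of_dvd_sub ?_).1 h5
  simp [mul_assoc]

theorem cnt_le {σ ι : Type} [Fintype σ] (tor : σ → Prop) (fp : ι → MvPolynomial σ ℤ)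
    (F : Type) [Field F] [Fintype F] : cnt tor fp F ≤ Fintype.card F ^ Fintype.card σ := by
  classical
  refine (Finset.card_filter_le _ _).trans_eq ?_
  rw [Finset.card_univ, ← Nat.card_eq_fintype_card, Nat.card_fun, Nat.card_eq_fintype_card,
    Nat.card_eq_fintype_card]

theorem rec_Tc (hv : SVT) (hR : SRat) (h3 : K3) (h4 : K4) (hr : KRow) (p : ℕ) [Fact p.Prime]
    (hp : 7 ≤ p) {I τ ι : Type} [LinearOrder I] [Fintype I] [Fintype τ] [DecidableEq τ]
    [Fintype ι] [DecidableEq ι] (M : Model I τ ι) (F : ℕ → Type) [∀ k, Field (F k)]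
    [∀ k, Fintype (F k)] (hF : ∀ k, 1 ≤ k → Fintype.card (F k) = p ^ k) :
    Rec fun k => M.Tc (F k) := by
  classical
  refine hR p _ (Fintype.card I + Fintype.card (Var I τ)) (fun k hk => ?_) ?_
  · have h1 : ∀ J, M.cntJ (F k) J ≤ (p ^ k) ^ Fintype.card (Var I τ) := fun J => by
      unfold Model.cntJ
      split_ifs
      · refine (cnt_le _ _ _).trans ?_
        rw [hF k hk]
        exact Nat.pow_le_pow_right (by positivity) (Fintype.card_subtype_le _)
      · exact Nat.zero_le _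
    refine (Finset.abs_sum_le_sum_abs _ _).trans ((Finset.sum_le_card_nsmul _ _
      ((((p ^ k) ^ Fintype.card (Var I τ) : ℕ) : ℤ)) fun J _ => ?_).trans ?_)
    · rw [abs_mul, abs_pow, abs_neg, abs_one, one_pow, one_mul, Nat.abs_cast]
      exact_mod_cast h1 J
    · have h2 : (Finset.univ.filter fun J : Finset I => J.Nonempty).card ≤
          (p ^ k) ^ Fintype.card I := by
        refine (Finset.card_filter_le _ _).trans ?_
        rw [Finset.card_univ, Fintype.card_finset]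
        exact Nat.pow_le_pow_left ((by omega : 2 ≤ p).trans (Nat.le_self_pow (by omega) p)) _
      rw [nsmul_eq_mul, mul_comm _ k, pow_mul, pow_add]
      push_cast
      exact mul_le_mul_of_nonneg_right (by exact_mod_cast h2) (by positivity)
  · have h1 := (hv p).2.2.2.2.2.1 _ (Finset.univ.filter fun J : Finset I => J.Nonempty)
      (fun J => (-1) ^ (J.card - 1)) (fun J k => (M.cntJ (F k) J : ℤ_[p])) fun J hJ => by
        have hJ' := (Finset.mem_filter.1 hJ).2
        simp only [Model.cntJ, dif_pos hJ']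
        exact mer_cnt hv h3 h4 hr p hp _ _ F hF
    simpa [Model.Tc, altSum] using h1

end Pool.Agent.MP_ea150c_mp.H20
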