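import Pool.Agent.MP_ea150c_mp.H20.All
import Pool.Agent.MP_ea150c_mp.H20.RecT
import Pool.Agent.MP_ea150c_mp.H63.La
import Pool.Agent.MP_ea150c_mp.H70.Lb
import Pool.Agent.MP_ea150c_mp.H16.Lc

/-! Assembly: from the two geometric inputs to the unit root theorem for the invariant `c_2`. -/

namespace Pool.Agent.MP_ea150c_mp.H20

open Pool.Agent.MP_ea150c_mp.H49 Polynomial

theorem cntAll_split {I τ ι : Type} [Fintype I] [Fintype τ] (M : Model I τ ι) (F : Type) [Field F]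
    [Fintype F] : cntAll M F (fun _ => True) =
      cntAll M F (fun x => ∃ v, x (Sum.inl (v, 0)) ≠ 0) +
        cntAll M F (fun x => ∀ v, x (Sum.inl (v, 0)) = 0) := by
  classical
  simp only [cntAll, Nat.card_eq_fintype_card, Fintype.card_subtype]
  rw [← Finset.card_filter_add_card_filter_not (s := Finset.univ.filter _)
    fun x : Var I τ → F => ∃ v, x (Sum.inl (v, 0)) ≠ 0, Finset.filter_filter,
    Finset.filter_filter]
  congr 2 <;> ext x <;> simp [and_comm]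

theorem link {m : ℕ} {E : Type} [Fintype E] [DecidableEq E] (G : PG (Fin m) E) (hG : G.Good)
    (F : Type) [Field F] [Fintype F]
    (h0 : ∀ R S, Disjoint R G.N0 → ¬ (R = ∅ ∧ S = Finset.univ) →
      (Fintype.card F : ℤ) ∣ (G.model R S).Tc F) :
    (Fintype.card F : ℤ) ^ 3 ∣ ((Fintype.card F : ℤ) - 1) ^ m * G.N4pos F -
      (-1) ^ m * ((Fintype.card F : ℤ) ^ 2 * (G.model ∅ Finset.univ).Tc F) := by
  have hm : 4 ≤ m := by simpa using hG.four
  have h1 := H16.sLc (Fin m) E G hG.noloop F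
  have h2 : ∀ R S, (Fintype.card F : ℤ) ^ 3 ∣ (cntAll (G.model R S) F (fun _ => True) : ℤ) -
      (Fintype.card F : ℤ) ^ 2 * (G.model R S).Tc F := fun R S => by
    obtain ⟨b1, b2⟩ := H70.sLb (Fin m) E G R S F
    rw [cntAll_split, Nat.cast_add, H63La.sLa _ _ _ _ F b1, add_sub_cancel_left]
    exact_mod_cast (pow_dvd_pow _ (by simp; omega)).trans b2
  rw [Fintype.card_fin] at h1
  rw [h1, ← Finset.sum_product', ← Finset.add_sum_erase _ _
    (a := ((∅ : Finset (Fin m)), (Finset.univ : Finset (Fin m)))) (by simp), add_sub_right_comm]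
  refine dvd_add ?_ (Finset.dvd_sum fun a ha => Dvd.dvd.mul_left ?_ _)
  · simp only [Finset.card_empty, Finset.card_univ, Fintype.card_fin, zero_add, ← mul_sub]
    exact (h2 _ _).mul_left _
  · obtain ⟨a1, a2⟩ := Finset.mem_erase.1 ha
    have a3 : Disjoint a.1 G.N0 := Finset.disjoint_left.2 fun v hv =>
      Finset.mem_compl.1 (Finset.mem_powerset.1 (Finset.mem_product.1 a2).1 hv)
    refine (dvd_iff_dvd_of_dvd_sub (h2 _ _)).2 ?_
    rw [pow_succ]
    exact mul_dvd_mul_left _ (h0 _ _ a3 fun h => a1 (Prod.ext h.1 h.2))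

theorem c2_Tc {m : ℕ} {E : Type} [Fintype E] [DecidableEq E] (G : PG (Fin m) E) (hG : G.Good)
    (hE : Fintype.card E = 2 * m) (hc : Conn G.src G.tgt Finset.univ)
    (F : Type) [Field F] [Fintype F]
    (h0 : ∀ R S, Disjoint R G.N0 → ¬ (R = ∅ ∧ S = Finset.univ) →
      (Fintype.card F : ℤ) ∣ (G.model R S).Tc F) :
    (Fintype.card F : ℤ) ∣ c2 G.src G.tgt F + (G.model ∅ Finset.univ).Tc F := by
  have hm : 4 ≤ m := by simpa using hG.four
  have h1 := link G hG F h0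
  obtain ⟨h2, n, h3⟩ := sM (Fin m) E G (by simp; omega) (by simpa using hE) hc F
  have hq : (Fintype.card F : ℤ) ^ 2 ≠ 0 := by positivity
  obtain ⟨x, hx⟩ : Fintype.card F ^ 2 ∣ XG G.src G.tgt F := by
    have h4 : (Fintype.card F : ℤ) ^ 2 ∣ (G.N4pos F : ℤ) := ⟨n, by exact_mod_cast h3⟩
    exact_mod_cast (dvd_add_left h4).1 ((pow_dvd_pow _ (by norm_num)).trans h2)
  have h5 : c2 G.src G.tgt F = x := by
    rw [c2, hx, Nat.card_eq_fintype_card, Nat.mul_div_cancel_left _ (by positivity)]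
  rw [hx, h3, pow_succ] at h2
  rw [h3, pow_succ] at h1
  push_cast at h1 h2
  rw [← mul_add, mul_dvd_mul_iff_left hq] at h2
  rw [mul_left_comm, mul_left_comm ((-1 : ℤ) ^ m), ← mul_sub, mul_dvd_mul_iff_left hq] at h1
  have h6 : (Fintype.card F : ℤ) ∣ ((Fintype.card F : ℤ) - 1) ^ m - (-1) ^ m := by
    simpa using sub_dvd_pow_sub_pow ((Fintype.card F : ℤ) - 1) (-1) m
  have h7 : (Fintype.card F : ℤ) ∣ (-1) ^ m * (n - (G.model ∅ Finset.univ).Tc F) := by
    exact (dvd_iff_dvd_of_dvd_sub (by ring_nf; exact dvd_zero _)).1 (dvd_sub h1 (h6.mul_right n))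
  rw [((isUnit_one.neg).pow m).dvd_mul_left] at h7
  rw [h5]
  exact (dvd_iff_dvd_of_dvd_sub (by ring_nf; exact dvd_zero _)).1 (dvd_sub h2 h7)

theorem concl_congr (p : ℕ) [Fact p.Prime] (T T' : ℕ → ℤ)
    (h : ∀ k, 1 ≤ k → (p : ℤ) ^ k ∣ T' k - T k) (hT : Concl p T) : Concl p T' := by
  obtain ⟨u, h1, h2, h3, h4⟩ := hT
  refine ⟨u, h1, h2, fun k hk => ?_, h4⟩
  have h5 : (p : ℤ_[p]) ^ k ∣ (T' k : ℤ_[p]) - T k := by
    exact_mod_cast (Int.castRingHom ℤ_[p]).map_dvd (h k hk)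
  simpa using dvd_add h5 (h3 k hk)

theorem concl_good (hK : SKron) (h3 : K3) (h4 : K4) (hr : KRow) (h0 : SA0) (hg : SGap)
    {V E : Type} [Fintype V] [DecidableEq V] [Fintype E] [DecidableEq E] (s t : E → V)
    (hG : GoodG s t) (h5 : 5 ≤ Fintype.card V) (p : ℕ) [Fact p.Prime] (hp : 7 ≤ p)
    (F : ℕ → Type) [∀ k, Field (F k)] [∀ k, Fintype (F k)]
    (hF : ∀ k, 1 ≤ k → Fintype.card (F k) = p ^ k) (hu : ¬ (p : ℤ) ∣ c2 s t (F 1)) :
    Concl p fun k => -c2 s t (F k) := by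
  obtain ⟨m, G, g1, g2, g3, g4⟩ := (H83.sTrans V E s t).1 hG h5
  have h1 : ∀ k, 1 ≤ k → (p : ℤ) ^ k ∣ c2 s t (F k) + (G.model ∅ Finset.univ).Tc (F k) :=
    fun k hk => by
      have h2 := c2_Tc G g1 g2 g3 (F k) fun R S a b => by
        rw [hF k hk]
        exact_mod_cast h0 p hp m E G g1 R S a b k hk (F k) (hF k hk)
      rw [hF k hk, c2, g4] at h2
      exact_mod_cast h2
  have h2 : ¬ (p : ℤ) ∣ (G.model ∅ Finset.univ).Tc (F 1) := fun h =>
    hu ((dvd_add_left h).1 (by simpa using h1 1 le_rfl))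
  obtain ⟨x, hx, hgap⟩ := hg p hp m E G g1 g3 F hF h2
  refine concl_congr p _ _ (fun k hk => ?_) (sUnit p _ h2
    (rec_Tc H59.sVT (sRat hK) h3 h4 hr p hp _ F hF) (H54.sCpt p _ x hx hgap))
  rw [← neg_add', dvd_neg]
  exact h1 k hk

end Pool.Agent.MP_ea150c_mp.H20
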