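import Pool.Agent.MP_ea150c_mp.H20.Final
import Pool.Agent.MP_ea150c_mp.H20.Kron
import Pool.Agent.MP_ea150c_mp.H15.K4g
import Pool.Agent.MP_ea150c_mp.H75.K1
import Pool.Agent.MP_ea150c_mp.H54.K2
import Pool.Agent.MP_ea150c_mp.H97.K3
import Pool.Agent.MP_ea150c_mp.H70.KRowKSupp
import Pool.Agent.MP_ea150c_mp.H44.K4
import Pool.Agent.MP_ea150c_mp.H15.S1
import Pool.Agent.MP_ea150c_mp.H45.S1pShiftEx

/-! The unit root theorem and its corollary, from the two geometric inputs. -/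

namespace Pool.Agent.MP_ea150c_mp.H20

open Polynomial

theorem allK3 : H49.K3 := H97.k3 H75.k1 (H54K.k2 H75.k1) (H54K.k2q H75.k1)

theorem allKRow : H49.KRow := H70.krow H75.k1

theorem allK4 : H49.K4 :=
  H44.k4 H75.k1 allK3 allKRow (H70.ksupp H15.s1 H45.s1p) H15.s1 H45.s1p

variable {V E : Type} [Fintype V] [DecidableEq V] [Fintype E] [DecidableEq E] (s t : E → V)

theorem c2_K4 (hG : GoodG s t) (h4 : Fintype.card V ≤ 4) (F : Type) [Field F] [Fintype F] :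
    (Fintype.card F : ℤ) ∣ -c2 s t F - 1 := by
  have h1 := H15.xgK4 s t hG h4 F
  have hq : (Fintype.card F : ℤ) ^ 2 ≠ 0 := by positivity
  have h2 : c2 s t F = (Fintype.card F : ℤ) ^ 3 + Fintype.card F - 1 := by
    rw [c2, Nat.card_eq_fintype_card]
    push_cast
    rw [h1]
    exact Int.ediv_eq_of_eq_mul_right hq (by ring)
  rw [h2]
  exact ⟨-(Fintype.card F : ℤ) ^ 2 - 1, by ring⟩

theorem concl_one (p : ℕ) [Fact p.Prime] : Concl p fun _ => 1 := by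
  refine ⟨1, isUnit_one, by simpa using isAlgebraic_one, fun k _ => by simp, fun γ h1 h2 => ?_⟩
  refine (h2 ?_).elim
  simpa [sub_eq_zero] using h1

theorem c2_congr (F F' : Type) [Field F] [Field F'] [Fintype F] [Fintype F']
    (h : Fintype.card F = Fintype.card F') : c2 s t F = c2 s t F' := by
  rw [c2, c2, (H83.sTrans V E s t).2 F F' (FiniteField.ringEquivOfCardEq h),
    Nat.card_eq_fintype_card, Nat.card_eq_fintype_card, h]

theorem concl_prim (h0 : SA0) (hg : SGap) (h3 : 3 ≤ Fintype.card V) (hc : Conn s t Finset.univ)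
    (h4 : ∀ v, deg s t v ≤ 4) (hP : Primitive s t) (p : ℕ) [Fact p.Prime] (hp : 7 ≤ p)
    (hu : ¬ (p : ℤ) ∣ c2 s t (ZMod p)) : Concl p fun k => -c2 s t (GaloisField p k) := by
  have hG := sQ V E s t h3 hc h4 hP
  let _ := fun k => Fintype.ofFinite (GaloisField p k)
  have hF : ∀ k, 1 ≤ k → Fintype.card (GaloisField p k) = p ^ k := fun k hk => by
    rw [← Nat.card_eq_fintype_card, GaloisField.card p k (by omega)]
  by_cases h5 : 5 ≤ Fintype.card V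
  · refine concl_good sKron allK3 allK4 allKRow h0 hg s t hG h5 p hp _ hF ?_
    rwa [c2_congr s t _ (ZMod p) (by rw [hF 1 le_rfl, pow_one, ZMod.card])]
  · refine concl_congr p _ _ (fun k hk => ?_) (concl_one p)
    have h6 := c2_K4 s t hG (by omega) (GaloisField p k)
    rw [hF k hk] at h6
    exact_mod_cast h6

theorem unit_root (h0 : SA0) (hg : SGap) (h3 : 3 ≤ Fintype.card V) (hc : Conn s t Finset.univ)
    (h4 : ∀ v, deg s t v ≤ 4) (hP : Primitive s t) (p : ℕ) [Fact p.Prime] (hp : 7 ≤ p)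
    (hu : ¬ (p : ℤ) ∣ c2 s t (ZMod p)) :
    ∃ u : ℤ_[p], IsUnit u ∧ IsAlgebraic ℚ (u : ℚ_[p]) ∧
      (∀ k, 1 ≤ k → ∀ (F : Type) [Field F] [Fintype F], Fintype.card F = p ^ k →
        (p : ℤ_[p]) ^ k ∣ (c2 s t F : ℤ_[p]) + u ^ k) ∧
      ∀ γ : PadicAlgCl p, aeval γ (minpoly ℚ (u : ℚ_[p])) = 0 →
        γ ≠ algebraMap ℚ_[p] (PadicAlgCl p) u → ‖γ‖ < (p : ℝ)⁻¹ := by
  obtain ⟨u, u1, u2, u3, u4⟩ := concl_prim s t h0 hg h3 hc h4 hP p hp hu
  refine ⟨u, u1, u2, fun k hk F _ _ hF => ?_, u4⟩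
  let _ := Fintype.ofFinite (GaloisField p k)
  rw [c2_congr s t F (GaloisField p k)
    (by rw [hF, ← Nat.card_eq_fintype_card, GaloisField.card p k (by omega)]), ← dvd_neg, neg_add']
  simpa using u3 k hk

theorem no_weil (h0 : SA0) (hg : SGap) (h3 : 3 ≤ Fintype.card V) (hc : Conn s t Finset.univ)
    (h4 : ∀ v, deg s t v ≤ 4) (hP : Primitive s t) (p : ℕ) [Fact p.Prime] (hp : 7 ≤ p)
    (f : ℤ[X]) (hf : f.Monic) (a : ℕ → ℤ)
    (ha : ∀ k, (a k : ℂ) = ((f.aroots ℂ).map (· ^ k)).sum)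
    (hw : (∀ z ∈ f.aroots ℂ, ‖z‖ ^ 2 = p) ∨ ((∀ z ∈ f.aroots ℂ, ‖z‖ = 1) ∧ f.natDegree ≠ 1))
    (ho : ¬ (p : ℤ) ∣ a 1) :
    ∃ k, 1 ≤ k ∧ ¬ (p : ℤ) ^ k ∣ c2 s t (GaloisField p k) + a k := by
  by_contra h
  push Not at h
  let _ := Fintype.ofFinite (GaloisField p 1)
  have h1 : ¬ (p : ℤ) ∣ c2 s t (ZMod p) := fun h2 => ho (by
    have h5 := h 1 le_rfl
    rw [c2_congr s t _ (ZMod p) (by
      rw [← Nat.card_eq_fintype_card, GaloisField.card p 1 one_ne_zero, pow_one, ZMod.card]),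
      pow_one] at h5
    exact (dvd_add_right h2).1 h5)
  refine sCorW p _ a f hf ha hw (concl_prim s t h0 hg h3 hc h4 hP p hp h1) fun k hk => ?_
  rw [← neg_add', dvd_neg]
  exact h k hk

end Pool.Agent.MP_ea150c_mp.H20
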