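import Pool.Agent.MP_ea150c_mp.H20.NonP
import Pool.Agent.MP_ea150c_mp.H16.FStmt

/-! The frame theorem when the first trace is not a unit. -/

namespace Pool.Agent.MP_ea150c_mp.H20

open Pool.Agent.MP_ea150c_mp.H49 Pool.Agent.MP_ea150c_mp.H16

noncomputable section

open H40 hiding mem_sm in
theorem absPN (p : ℕ) [Fact p.Prime] (hp : 3 ≤ p) (TB TL TX : Type)
    [AddCommGroup TB] [Module ℤ_[p] TB] [Module.Finite ℤ_[p] TB] [Module.Free ℤ_[p] TB]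
    [AddCommGroup TL] [Module ℤ_[p] TL] [Module.Finite ℤ_[p] TL] [Module.Free ℤ_[p] TL]
    [AddCommGroup TX] [Module ℤ_[p] TX] [Module.Finite ℤ_[p] TX] [Module.Free ℤ_[p] TX]
    (C : Cx ℤ_[p] TB TL TX) (G : Fr ℤ_[p] TB TL TX) (S : ℕ)
    (hS : Str (p : ℤ_[p]) C) (hD : ParD (p : ℤ_[p]) C G) (hH : ParH (p : ℤ_[p]) C G)
    (hC : Com ((p : ℤ_[p]) ^ S) C G) (e : TB) (he : H0T (p : ℤ_[p]) C e)
    (h1 : H1T (p : ℤ_[p]) C G) (hu : (p : ℤ_[p]) ∣ sTr C G 1) (h1S : 1 ≤ S) (k : ℕ) (hk : 1 ≤ k) :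
    (p : ℤ_[p]) ^ min S k ∣ sTr C G k := by
  have key := pStmtN p hp (TB × TL × TX) (tE C) (tD C) (tP G) (C.B0.prod ⊥)
    (C.B1.prod (C.L1.prod ⊥)) ((⊤ : Submodule ℤ_[p] TB).prod ((⊤ : Submodule ℤ_[p] TL).prod ⊥))
    ((⊥ : Submodule ℤ_[p] TB).prod ((⊥ : Submodule ℤ_[p] TL).prod ⊤)) S
    (fun x => by simp [tE_apply, hS.ssB, hS.ssL, hS.ssX])
    (fun x => by
      simp only [tE_apply, tD_apply, map_add, map_neg, hS.ssB, hS.ssL, hS.sdB, hS.sdL, hS.sdX,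
        hS.bds, hS.incs, Prod.neg_mk, neg_add, neg_neg])
    (fun x => by
      simp only [tE_apply, tP_apply, map_add, map_neg, hD.sB, hD.sL, hH.sX, hH.sH, hH.sKL,
        hH.sKB, Prod.mk.injEq, and_true, true_and]
      abel)
    (fun x => by
      simp only [tD_apply, map_add, hS.ddB, hS.ddL, hS.ddX, hS.bdd, hS.bds, hS.incd, hS.sdB,
        hS.sdL, hS.bdinc, map_zero, Prod.mk_eq_zero, and_true]
      constructor <;> abel)
    (fun x hx => by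
      have h2 : x.2 = 0 := hx.2
      exact ⟨hS.s0 _ hx.1, by simp [tE_apply, h2]⟩)
    (fun x hx => by
      have h2 : x.2.2 = 0 := hx.2.2
      exact ⟨hS.s1 _ hx.1, C.L1.neg_mem (hS.sL1 _ hx.2.1), by simp [tE_apply, h2]⟩)
    (fun x hx => by
      have h2 : x.2.2 = 0 := hx.2.2
      exact ⟨trivial, trivial, by simp [tE_apply, h2]⟩)
    (fun x hx => by
      have h1 : x.1 = 0 := hx.1
      have h2 : x.2.1 = 0 := hx.2.1
      exact ⟨by simp [tE_apply, h1], by simp [tE_apply, h2], trivial⟩)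
    (Submodule.prod_mono hS.le01 bot_le)
    (Submodule.prod_mono le_top (Submodule.prod_mono le_top le_rfl))
    (by
      constructor
      · rw [disjoint_iff, Submodule.prod_inf_prod, Submodule.prod_inf_prod]
        simp
      · rw [codisjoint_iff, Submodule.prod_sup_prod, Submodule.prod_sup_prod]
        simp)
    (fun x hx => by
      have h2 : (p : ℤ_[p]) • x.2 = 0 := hx.2
      exact ⟨hS.sat0 _ hx.1, Prod.ext (hS.tfL _ (congrArg Prod.fst h2))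
        (hS.tfX _ (congrArg Prod.snd h2))⟩)
    (fun x hx => ⟨hS.sat1 _ hx.1, hS.satL _ hx.2.1, hS.tfX _ hx.2.2⟩)
    (fun x hx => by
      have h2 : x.2 = 0 := hx.2
      refine ⟨?_, by simp [tD_apply, h2]⟩
      simpa [tD_apply, h2] using hS.d0 _ hx.1)
    (fun x hx => by
      have h2 : x.2.2 = 0 := hx.2.2
      refine ⟨C.B1.add_mem (hS.d1 _ hx.1) (hS.s1 _ (hS.bd1 _ hx.2.1)), ?_, by simp [tD_apply, h2]⟩
      simpa [tD_apply, h2] using hS.dL1 _ hx.2.1)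
    (fun x => by
      rw [sm_prod, sm_top_prod, Submodule.prod_sup_prod, Submodule.prod_sup_prod, bot_sup_eq,
        sm_prod, sm_top_prod, Submodule.prod_sup_prod, sm_bot, bot_sup_eq]
      exact ⟨hD.vB _, Submodule.add_mem _ (hH.vH _) (hD.vL _),
        Submodule.add_mem _ (Submodule.add_mem _ (hH.vKB _) (hH.vKL _)) (hH.vX _)⟩)
    (fun x hx => by
      have h1 : x.1 = 0 := hx.1
      have h2 : x.2.1 = 0 := hx.2.1
      exact ⟨by simp [tP_apply, h1], by simp [tP_apply, h1, h2], trivial⟩)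
    (fun x => by
      rw [sm_top_prod, Submodule.prod_sup_prod, bot_sup_eq, sm_top_prod, Submodule.prod_sup_prod,
        bot_sup_eq, top_sup_eq]
      refine ⟨?_, ?_, trivial⟩
      · have := Submodule.add_mem _ (hC.c1 x.1) (sm_map _ C.sB (hC.c2 x.2.1))
        refine mem_of_eq this ?_
        simp only [tD_apply, tP_apply, map_add, map_sub, hD.sB, Prod.fst_sub]
        abel
      · have := Submodule.add_mem _ (Submodule.add_mem _ (hC.c5 x.1) (hC.c4 x.2.1))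
          (sm_map _ C.sL (hC.c3 x.2.2))
        refine mem_of_eq this ?_
        simp only [tD_apply, tP_apply, map_add, map_sub, hD.sL, Prod.fst_sub, Prod.snd_sub]
        abel)
  have h0 : ∀ e, H0T (p : ℤ_[p]) C e → ∀ x ∈ (C.B0.prod ⊥ : Submodule ℤ_[p] (TB × TL × TX)),
      tD C x ∈ sm (p : ℤ_[p]) (C.B0.prod ⊥ : Submodule ℤ_[p] (TB × TL × TX)) →
      ∃ c : ℤ_[p], ∃ z ∈ (C.B0.prod ⊥ : Submodule ℤ_[p] (TB × TL × TX)),
        x - c • ((e, 0) : TB × TL × TX) - tD C z ∈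
          sm (p : ℤ_[p]) (C.B0.prod ⊥ : Submodule ℤ_[p] (TB × TL × TX)) := by
    intro e he x hx hd
    have h2 : x.2 = 0 := hx.2
    rw [sm_prod] at hd ⊢
    obtain ⟨c, z, hz, h⟩ := he.2.2 x.1 hx.1 (by simpa [tD_apply, h2] using hd.1)
    refine ⟨c, (z, 0), ⟨hz, rfl⟩, ?_, ?_⟩
    · simpa [tD_apply] using h
    · simp [tD_apply, h2, sm_bot]
  have := key (e, 0) ⟨he.1, rfl⟩ (by simp [tE_apply, he.2.1]) (h0 e he)
    (fun x hx hε hd => by
      have h2 : x.2.2 = 0 := hx.2.2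
      rw [sm_prod, sm_prod] at hd
      have e1 : C.sB x.1 = x.1 := congrArg Prod.fst hε
      have e2 : -C.sL x.2.1 = x.2.1 := congrArg (fun u => u.2.1) hε
      obtain ⟨β, hβ, ζ, hζ, g1, g2⟩ := h1 x.1 hx.1 x.2.1 hx.2.1 e1 (neg_eq_iff_eq_neg.1 e2)
        hd.1 (by simpa [tD_apply, h2] using hd.2.1)
      refine ⟨(β, ζ, 0), ⟨hβ, hζ, rfl⟩, ?_⟩
      rw [sm_top_prod, Submodule.prod_sup_prod, bot_sup_eq, sm_top_prod]
      refine ⟨g1, ?_, ?_⟩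
      · simpa [tD_apply, tP_apply] using g2
      · simpa [tD_apply, tP_apply] using
          Submodule.add_mem _ (Submodule.add_mem _ (hH.vKB x.1) (hH.vKL x.2.1)) (hH.vX x.2.2))
    (by
      have e1 := trace_tot C G 1
      rw [pow_one] at e1
      rw [e1]
      exact hu.add ((dvd_pow_self _ (by norm_num)).trans (trace_last C G _ hH 1))) h1S k hk
  rw [trace_tot] at this
  exact (dvd_add_left ((pow_dvd_pow _ (by omega)).trans (trace_last C G _ hH k))).1 this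

/-- The frame theorem when the first count is divisible by `p`. -/
def FStmtN : Prop :=
  ∀ (p : ℕ) [Fact p.Prime], 7 ≤ p → ∀ (A B Γ I ι : Type) (σ : I → Type)
    [CommRing A] [Algebra ℤ_[p] A] [AddCommGroup B] [Module A B] [Module ℤ_[p] B]
    [IsScalarTower ℤ_[p] A B] [AddCommGroup Γ] [LinearOrder I] [Fintype I] [Fintype ι]
    [DecidableEq ι] [∀ j, Fintype (σ j)] [∀ j, DecidableEq (σ j)]
    (F : FrameData p A B Γ I ι σ) (c : Finset I → ℕ → ℤ_[p]),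
    F.AxL → F.AxC → F.AxT → F.TraceHyp c →
    ∀ e 𝒳, F.H0 e → e ∈ 𝒳 → F.H1a → F.H1b 𝒳 → F.H1c 𝒳 →
      ((p : ℤ_[p]) ∣ altSum fun J => c J 1) → ∀ k, 1 ≤ k → (p : ℤ_[p]) ^ k ∣ altSum fun J => c J k

theorem fStmtN (f1 : RowF1) (f2 : RowF2) (f3a : RowF3a) (f3b : RowF3b) (c1 : C1) : FStmtN := by
  have hH1 := H75.absH1
  have hD := H26.trD
  have l1 := H78.loc1
  have l2 := H87.loc2 H28.trL
  have hC := H1.exC c1
  have hCom := H60.comR
  have hH := H96.exH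
  have hT := H56.transR
  intro p _ hp A B Γ I ι σ _ _ _ _ _ _ _ _ _ _ _ _ _ F c hL hCx hTx hc
  rcases isEmpty_or_nonempty I with hI | hI
  · intro e 𝒳 _ _ _ _ _ _ k _
    refine Finset.dvd_sum fun J hJ => ?_
    obtain ⟨j, -⟩ := (Finset.mem_filter.1 hJ).2
    exact hI.elim j
  let _ : Inhabited I := Classical.inhabited_of_nonempty hI
  have g1 : F.F1 := f1 p A B Γ I ι σ F hL hCx hTx
  have g2 : F.F2 := f2 p A B Γ I ι σ F hL hCx hTx g1
  have g3 : F.F3a := f3a p A B Γ I ι σ F hL hCx hTx g1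
  have g4 : F.F3b := f3b p A B Γ I ι σ F hL hCx hTx g1 g3
  have hp3 : 3 ≤ p := by omega
  have q1 : QLoc1 F := l1 p A B Γ I ι σ F hp3 hL hCx g1 g2 g3 g4
  have q2 : QLoc2 F := l2 p A B Γ I ι σ F hp3 hL hCx g1 g2 g3 g4
  have qC : QExC F := hC p A B Γ I ι σ F hp3 hL hCx g1 g2 g3 g4
  have qCom : QCom F := hCom p A B Γ I ι σ F hp3 hL hCx g1 g2 g3 g4
  have qH : QExH F := hH p A B Γ I ι σ F hp3 hL hCx g1 g2 g3 g4
  have qT : QTrans F := hT p A B Γ I ι σ F hp3 hL hCx g1 g2 g3 g4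
  -- the common setup
  have setup : ∀ S, 1 ≤ S → ∃ (M S' : ℕ) (C : Cx ℤ_[p] (F.CB M) (CLt F M) (CXm F M))
      (G : Fr ℤ_[p] (F.CB M) (CLt F M) (CXm F M)), 1 ≤ M ∧ S ≤ S' ∧ Rep F M C ∧
      Str (p : ℤ_[p]) C ∧ ParD (p : ℤ_[p]) C G ∧ ParH (p : ℤ_[p]) C G ∧ AppD F M S' G ∧
      Com ((p : ℤ_[p]) ^ S) C G ∧ ∀ k, 1 ≤ k →
        (p : ℤ_[p]) ^ min S (2 * k) ∣ altSum (fun J => c J k) - sTr C G k := by
    intro S hS
    obtain ⟨m₀, hm₀⟩ := exD hD hL g1 g2 q1 q2 hc S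
    let m := m₀ + 3 * S
    have hv := val_bound p hp S (m + 1) (by omega)
    obtain ⟨C, R, hS1⟩ := qC (m + 1) (by omega)
    obtain ⟨G1, pD, aD, tr⟩ := hm₀ m (by omega) (nu (m + 1)) C (by omega) hv le_rfl R
    obtain ⟨G2, pH, aH⟩ := qH (m + 1) (nu (m + 1)) C (by omega) le_rfl R
    let G : Fr ℤ_[p] (F.CB (m + 1)) (CLt F (m + 1)) (CXm F (m + 1)) :=
      ⟨G1.ΦB, G1.ΦL, G2.ΦX, G2.H, G2.KL, G2.KB⟩
    have aD' : AppD F (m + 1) (nu (m + 1)) G := ⟨aD.aB, aD.aL⟩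
    have aH' : AppH F (m + 1) (nu (m + 1)) G := ⟨aH.aX, aH.aH, aH.aKL, aH.aKB⟩
    exact ⟨m + 1, nu (m + 1), C, G, by omega, by omega, R, hS1, ⟨pD.sB, pD.sL, pD.vB, pD.vL⟩,
      ⟨pH.sX, pH.sH, pH.sKL, pH.sKB, pH.vX, pH.vH, pH.vKL, pH.vKB⟩, aD',
      qCom (m + 1) S _ C G hv R aD' aH', tr⟩
  have ffB : ∀ M, Module.Finite ℤ_[p] (F.CB M) ∧ Module.Free ℤ_[p] (F.CB M) := fun M =>
    have h := hD ℤ_[p] B I (fun J => F.Bl J 0 M) (fun J hJ => ff_of hL.tf _ (hL.fg _ _ _ hJ))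
    ⟨h.1, h.2.1⟩
  have ffL : ∀ M, Module.Finite ℤ_[p] (CLt F M) ∧ Module.Free ℤ_[p] (CLt F M) := fun M =>
    have h := hD ℤ_[p] _ I (fun J => F.Lt J M) (fun J hJ => ff_of (tfY hL) _ (fgLt hL g2 J hJ _))
    ⟨h.1, h.2.1⟩
  have ffX : ∀ M, Module.Finite ℤ_[p] (CXm F M) ∧ Module.Free ℤ_[p] (CXm F M) := fun M =>
    have h := hD ℤ_[p] _ I (fun J => F.X J M)
      (fun J hJ => ff_of (tfY hL) _ (fgX hL g1 g2 J hJ _))
    ⟨h.1, h.2.1⟩
  intro e 𝒳 h0 he ha hb hcc hu k hk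
  obtain ⟨M, S', C, G, hM, hS', R, sC, pD, pH, aD, cm, tr⟩ := setup (max k 2) (by omega)
  obtain ⟨i1, i2⟩ := ffB M
  obtain ⟨i3, i4⟩ := ffL M
  obtain ⟨i5, i6⟩ := ffX M
  obtain ⟨t0, ta, tb, tc, -, -⟩ := qT M C hM R
  obtain ⟨e', he', h0'⟩ := t0 e h0
  have cm2 : Com ((p : ℤ_[p]) ^ 2) C G :=
    ⟨fun x => sm_anti _ (le_max_right k 2) _ (cm.c1 x),
      fun x => sm_anti _ (le_max_right k 2) _ (cm.c2 x),
      fun x => sm_anti _ (le_max_right k 2) _ (cm.c3 x),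
      fun x => sm_anti _ (le_max_right k 2) _ (cm.c4 x),
      fun x => sm_anti _ (le_max_right k 2) _ (cm.c5 x)⟩
  have h1 : H1T (p : ℤ_[p]) C G := hH1 _ _ _ _ _ C G e' _ (H16.two_unit hp3) sC pD pH cm2 h0'
    (show e'.1 ∈ 𝒳 by rw [he']; exact he) (ta ha) (tb 𝒳 hb)
    (tc 𝒳 S' G (by omega) aD hcc)
  have hu' : (p : ℤ_[p]) ∣ sTr C G 1 :=
    (dvd_iff_dvd_of_dvd_sub ((dvd_pow_self _ (by omega)).trans (tr 1 le_rfl))).1 hu
  have t1 := absPN p hp3 _ _ _ C G (max k 2) sC pD pH cm e' h0' h1 hu' (by omega) k hk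
  have t2 := (pow_dvd_pow (p : ℤ_[p]) (show k ≤ min (max k 2) (2 * k) by omega)).trans (tr k hk)
  rw [min_eq_right (le_max_left _ _)] at t1
  simpa using dvd_add t2 t1

end

end Pool.Agent.MP_ea150c_mp.H20
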