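import Pool.Agent.MP_ea150c_mp.H20.NonF
import Pool.Agent.MP_ea150c_mp.H49.All1

/-! The counts of the main model when the first count is divisible by `p`. -/

namespace Pool.Agent.MP_ea150c_mp.H20

open Pool.Agent.MP_ea150c_mp.H49

noncomputable section

theorem sGapN (g2b : G2b) (vS : VStmt) (p : ℕ) [Fact p.Prime] (hp : 7 ≤ p) (m : ℕ) (E : Type)
    [Fintype E] [DecidableEq E] (G : PG (Fin m) E) (hG : G.Good) (F : ℕ → Type) [∀ k, Field (F k)]
    [∀ k, Fintype (F k)] (hF : ∀ k, 1 ≤ k → Fintype.card (F k) = p ^ k)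
    (hu : (p : ℤ) ∣ (G.model ∅ Finset.univ).Tc (F 1)) (k : ℕ) (hk : 1 ≤ k) :
    (p : ℤ) ^ k ∣ (G.model ∅ Finset.univ).Tc (F k) := by
  have f1 := H29.rowF1
  have s1 := aS1
  have g1 := aG1
  have g2a := aG2a
  have g3b := aG3b
  have g4 := aG4
  have cs := aCS
  have cb := aCB
  have cv0 := H45.cv0 aCX
  have cv1 := H50.cv1 aCX aS1
  have ch0 := H86.ch0 aCX aCC
  have ch1a := H83.ch1a aCX aC1
  have a1 := H96.a1
  have k3 := allK3
  obtain ⟨hgood, hw, hev, -⟩ := a1 (Fin m) E G hG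
  have h := hgood ∅ Finset.univ
  have h4 : (4 : ℤ) ≤ Fintype.card (Fin m) := by exact_mod_cast hG.four
  have aL := g2a _ _ _ _ h p
  have aC := g2b _ _ _ _ h p hp
  have aT := g3b _ _ _ _ h p hp
  have k0 := cv0 _ _ _ _ h (ZMod p)
  have sm0 : ∀ a b : ℤ, a ≤ 4 → b ≤ 4 → a + b ≤ 6 → Small ((0, 0, a, b) : Gam (Fin m)) :=
    fun a b _ _ _ => ⟨by simp; omega, by simp; omega, by dsimp only; omega⟩
  have sm1 : ∀ (v : Fin m) (e a b : ℤ), a ≤ 4 → b ≤ 4 → a + b ≤ 6 →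
      Small ((Pi.single v 1, e, a, b) : Gam (Fin m)) := fun v e a b _ _ _ => by
    have := abs_nonneg e
    refine ⟨?_, ?_, by dsimp only; omega⟩ <;> simp [Finset.sum_pi_single'] <;> omega
  have hP0 : G.M0.CechP p G.M0.w0 (Submodule.span ℤ_[p] {1}) := by
    rw [hw]
    refine (cb _ _ _ _ h p _).2 _ _ (fun a ha => ?_) (fun a ha => ?_)
      ((cs _ _ _ _ h (ZMod p) (two_unit p hp) _ (sm0 2 2 (by omega) (by omega) (by omega))).2 _ k0.1)
    · exact (cv0 _ _ _ _ h ℤ_[p]).1.2.1 a ha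
    · obtain ⟨c, rfl⟩ := Submodule.mem_span_singleton.1 ha
      obtain ⟨c', rfl⟩ := ZMod.ringHom_surjective PadicInt.toZMod c
      refine ⟨c' • 1, Submodule.smul_mem _ _ (Submodule.mem_span_singleton_self _), ?_⟩
      rw [Subalgebra.coe_smul, Subalgebra.coe_smul]
      ext u
      simp [tmap, AddMonoidAlgebra.one_def, Finsupp.single_apply]
  have u2 : IsUnit (2 : ℤ_[p]) := by
    by_contra h2
    have h3 : (p : ℤ_[p]) ^ 1 ∣ ((2 : ℤ) : ℤ_[p]) := by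
      rw [pow_one, ← PadicInt.norm_lt_one_iff_dvd]
      exact PadicInt.not_isUnit_iff.1 (by simpa using h2)
    have := Int.le_of_dvd (by norm_num) (int_dvd p 1 2 h3)
    rw [pow_one] at this
    omega
  have hI : ∀ i, ∀ a ∈ G.InvI h ℤ_[p] i, a ∈ G.M0.Ap ℤ_[p] ∅ (G.M0.om i) := fun i a ha => by
    simpa using (cv1 _ _ G hG h ℤ_[p] u2 i).2.2.1 a ha
  have hP1 : ∀ i, G.M0.CechP p (G.M0.w0 + G.M0.om i) (G.InvI h ℤ_[p] i) := fun i => by
    rw [hw]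
    have h5 := cv1 _ _ G hG h (ZMod p) (two_unit p hp) i
    exact (cb _ _ _ _ h p _).2 _ _ (cv1 _ _ G hG h ℤ_[p] u2 i).2.2.1 (inv_lift G h p s1 g1 i)
      ((cs _ _ _ _ h (ZMod p) (two_unit p hp) _ h5.1).2 _ h5.2)
  have H0 := (ch0 _ _ _ _ h p).2.1 hw hP0
  have H1b := (ch0 _ _ _ _ h p).2.2 hw _ hI hP1
  have H1a := ch1a _ _ _ _ h p hw aL aC (f1 p _ _ _ _ _ _ _ aL aC aT)
    (offP cs cb _ h p hp _ (sm0 2 2 (by omega) (by omega) (by omega)) k0.1.1)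
    (botP cs cb _ h p hp _ (sm0 2 4 (by omega) (by omega) (by omega)) k0.2.1)
    (botP cs cb _ h p hp _ (sm0 4 2 (by omega) (by omega) (by omega)) k0.2.2.1)
    (fun v => ⟨offP cs cb _ h p hp _ (sm1 v 0 1 1 (by omega) (by omega) (by omega)) (k0.2.2.2.1 v).1,
      botP cs cb _ h p hp _ (sm1 v 0 1 3 (by omega) (by omega) (by omega)) (k0.2.2.2.1 v).2.1,
      botP cs cb _ h p hp _ (sm1 v 0 3 1 (by omega) (by omega) (by omega)) (k0.2.2.2.1 v).2.2.1,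
      offP cs cb _ h p hp _ (sm1 v 0 3 3 (by omega) (by omega) (by omega)) (k0.2.2.2.1 v).2.2.2⟩)
    (fun t => offP cs cb _ h p hp _ (sm1 _ _ 2 2 (by omega) (by omega) (by omega)) (k0.2.2.2.2.1 t))
  let n := Fintype.card (Io G Finset.univ)
  let c : Finset (Fin m) → ℕ → ℤ_[p] := fun J k =>
    (-1) ^ Fintype.card (Var (Fin m) (Ex0 (Fin m))) * lam p ^ (n * k) * (G.M0.cntJ (F k) J : ℤ_[p])
  have hT := g4 _ _ _ _ h p hp c fun J k hk => ⟨F k, inferInstance, inferInstance, hF k hk, rfl⟩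
  have hc : ∀ k, (altSum fun J => c J k) = (lam p ^ n) ^ k * ((G.M0.Tc (F k) : ℤ) : ℤ_[p]) := by
    intro k
    simp only [c]
    rw [altSum_mul, ← cast_Tc, hev.neg_one_pow, one_mul, pow_mul]
  have hl := (H49.lam_unit k3 p hp).pow n
  have h6 := fStmtN f1 H33.rowF2 H6.rowF3a H99.rowF3b aC1 p hp _ _ _ _ _ _ _ c aL aC aT hT _
    (G.XX h p) H0 (Submodule.subset_span (Or.inl rfl)) H1a H1b (vS _ _ G hG h p hp) (by
      rw [hc]
      exact Dvd.dvd.mul_left (by exact_mod_cast (Int.castRingHom ℤ_[p]).map_dvd hu) _) k hk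
  rw [hc] at h6
  exact int_dvd p k _ ((hl.pow k).dvd_mul_left.1 h6)

end

end Pool.Agent.MP_ea150c_mp.H20
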