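import Pool.Agent.MP_ea150c_mp.H12.P2
import Pool.Agent.MP_ea150c_mp.H55.P1
import Pool.Agent.MP_ea150c_mp.H9.PStmt

/-! The perturbation theorem when the first trace is not a unit. -/

namespace Pool.Agent.MP_ea150c_mp.H20

open Module Matrix Pool.Agent.MP_ea150c_mp.H49

noncomputable section

theorem trace_swap {R ι : Type} [CommRing R] [Fintype ι] [DecidableEq ι] (X Y : Matrix ι ι R)
    (k : ℕ) : ((X * Y) ^ (k + 1)).trace = ((Y * X) ^ (k + 1)).trace := by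
  rw [pow_succ, ← mul_assoc, mul_pow_mul, trace_mul_comm, ← mul_assoc, ← pow_succ']

theorem p2n {R ι : Type} [CommRing R] [Fintype ι] [DecidableEq ι] (π : R)
    (hloc : ∀ r : R, IsUnit r ∨ π ∣ r) (M₀ : MM R ι) (hG₀ : M₀.Good π) {e₀ : ι → R}
    (he₀ : M₀.H0 π e₀) (hh : M₀.H1 π) (hu : π ∣ M₀.str 1) (k : ℕ) (hk : 1 ≤ k) :
    π ^ k ∣ M₀.str k := by
  by_cases hπ : π ∣ 1
  · exact (pow_dvd_pow_of_dvd hπ k).trans (by simp)
  obtain ⟨ι', _, _, M, hG, hm, hstr, -, -, hH0, hH1⟩ := H55.p1 _ π hloc ι M₀ hG₀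
  obtain ⟨e, he⟩ := hH0 e₀ he₀
  have hrow : ∀ i j, M.lev i ≠ 0 → π ∣ M.Ψ i j := fun i j hi => by
    by_cases h : M.lev i = 1
    · exact hG.row1 i j h
    · exact (dvd_pow_self π two_ne_zero).trans (hG.row2 i j (by omega))
  have h0 : ∀ i, M.lev i = 0 → M.par i = false := fun i hi => by
    by_contra h
    exact H12.lev0_par hG hm hπ he i hi (he.2.1 i (by simpa using h))
  have h00 : ∀ i, M.lev i = 0 → π ∣ M.Ψ i i := fun i hi => by
    rw [← hstr 1 le_rfl, MM.str, ← Finset.add_sum_erase _ _ (Finset.mem_univ i), pow_one] at hu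
    have h2 := (dvd_add_left (Finset.dvd_sum fun l hl => Dvd.dvd.mul_left (hrow l l fun h =>
      (Finset.mem_erase.1 hl).1 (H12.lev0_uniq hG hm hπ he l i h hi)) _)).1 hu
    simpa [h0 i hi] using h2
  have hA : ∀ i j, ∃ y, (if M.lev i = 0 then 1 else π) * y = H12.blk M false i j ∧
      π ∣ y * (if M.lev j = 0 then 1 else π) := fun i j => by
    by_cases hi : M.par i = false
    swap
    · exact ⟨0, by simp [H12.blk, hi], by simp⟩
    have hb : H12.blk M false i j = M.Ψ i j := by simp [H12.blk, hi]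
    rw [hb]
    split_ifs with a b b
    · obtain rfl := H12.lev0_uniq hG hm hπ he i j a b
      exact ⟨_, one_mul _, (h00 i a).mul_right _⟩
    · exact ⟨_, one_mul _, dvd_mul_left _ _⟩
    · obtain ⟨c, hc⟩ : π ^ 2 ∣ M.Ψ i j := by
        by_cases h4 : 2 ≤ M.lev i
        · exact hG.row2 i j h4
        · exact H12.rigid hG hm h0 (hH1 hh) i j (by omega) (by omega) (h0 j b)
      exact ⟨π * c, by rw [hc]; ring, c, by ring⟩
    · obtain ⟨c, hc⟩ := hrow i j a
      exact ⟨c, hc.symm, dvd_mul_left _ _⟩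
  choose Y hY1 hY2 using hA
  have hb : H12.blk M false = diagonal (fun i => if M.lev i = 0 then 1 else π) * of Y := by
    ext i j
    rw [diagonal_mul, of_apply, hY1]
  rw [← hstr k hk, H12.str_eq hG k hk]
  refine dvd_sub ?_ (Finset.dvd_sum fun i _ => H12.dvd_pow_entry _ (fun i j => ?_) k i i)
  · obtain ⟨k, rfl⟩ : ∃ j, k = j + 1 := ⟨k - 1, by omega⟩
    rw [hb, trace_swap]
    exact Finset.dvd_sum fun i _ => H12.dvd_pow_entry _
      (fun i j => by rw [mul_diagonal]; exact hY2 i j) _ i i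
  · rw [H12.blk, of_apply]
    split_ifs with h
    · exact hrow i j fun a => by simp [h0 i a] at h
    · exact dvd_zero _

/-- The perturbation theorem when the first trace is divisible by `p`. -/
def PStmtN : Prop :=
  ∀ (p : ℕ) [Fact p.Prime], 3 ≤ p → ∀ (T : Type) [AddCommGroup T] [Module ℤ_[p] T]
    [Module.Finite ℤ_[p] T] [Module.Free ℤ_[p] T] (ε D Ψ : T →ₗ[ℤ_[p]] T)
    (W0 W1 W2 K : Submodule ℤ_[p] T) (S : ℕ),
    (∀ x, ε (ε x) = x) → (∀ x, ε (D x) = -D (ε x)) → (∀ x, ε (Ψ x) = Ψ (ε x)) →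
    (∀ x, D (D x) = 0) →
    (∀ x ∈ W0, ε x ∈ W0) → (∀ x ∈ W1, ε x ∈ W1) → (∀ x ∈ W2, ε x ∈ W2) → (∀ x ∈ K, ε x ∈ K) →
    W0 ≤ W1 → W1 ≤ W2 → IsCompl W2 K →
    (∀ x, (p : ℤ_[p]) • x ∈ W0 → x ∈ W0) → (∀ x, (p : ℤ_[p]) • x ∈ W1 → x ∈ W1) →
    (∀ x ∈ W0, D x ∈ W0) → (∀ x ∈ W1, D x ∈ W1) →
    (∀ x, Ψ x ∈ W0 ⊔ sm (p : ℤ_[p]) W1 ⊔ sm ((p : ℤ_[p]) ^ 2) ⊤) →
    (∀ x ∈ K, Ψ x ∈ K) →
    (∀ x, D (Ψ x) - Ψ (D x) ∈ K ⊔ sm ((p : ℤ_[p]) ^ S) ⊤) →
    ∀ e ∈ W0, ε e = e →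
      (∀ x ∈ W0, D x ∈ sm (p : ℤ_[p]) W0 →
        ∃ c : ℤ_[p], ∃ z ∈ W0, x - c • e - D z ∈ sm (p : ℤ_[p]) W0) →
      (∀ x ∈ W1, ε x = x → D x ∈ sm (p : ℤ_[p]) W1 →
        ∃ z ∈ W1, Ψ x - (p : ℤ_[p]) • D z ∈ W0 ⊔ sm ((p : ℤ_[p]) ^ 2) ⊤) →
      (p : ℤ_[p]) ∣ LinearMap.trace ℤ_[p] T (ε ∘ₗ Ψ) → 1 ≤ S →
      ∀ k, 1 ≤ k → (p : ℤ_[p]) ^ min S k ∣ LinearMap.trace ℤ_[p] T (ε ∘ₗ Ψ ^ k)

open H9 in
theorem pStmtN : PStmtN := by
  intro p _ hp T _ _ _ _ ε D Ψ W0 W1 W2 K S hε hεD hεΨ hDD e0 e1 e2 eK l01 l12 hc s0 s1 d0 d1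
    hΨ hK herr
  classical
  obtain ⟨ι, _, b, lv, par, hb, w0, w1, wK⟩ :=
    adapted hp ε hε W0 W1 W2 K e0 e1 e2 eK l01 l12 hc s0 s1
  have rε := repr_diag b ε _ hb
  have r0 : ∀ x ∈ W0, red S b x ∈ (model S b D Ψ lv par).W 0 := fun x hx =>
    (mem_W _ _ _).2 fun i hi => red_zero S b ((w0 x).1 hx i hi)
  have r1 : ∀ x ∈ W1, red S b x ∈ (model S b D Ψ lv par).W 1 := fun x hx =>
    (mem_W _ _ _).2 fun i hi => red_zero S b ((w1 x).1 hx i hi)
  have rK : ∀ x ∈ K, red S b x ∈ KS S lv := fun x hx i hi => red_zero S b ((wK x).1 hx i hi)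
  have rE : ∀ x, red S b (D (Ψ x) - Ψ (D x)) ∈ KS S lv := fun x => by
    obtain ⟨y, hy, z, hz, e⟩ := Submodule.mem_sup.1 (herr x)
    obtain ⟨t, -, rfl⟩ := mem_sm.1 hz
    rw [← e, map_add, map_smulₛₗ, ph_pow, zero_smul, add_zero]
    exact rK y hy
  have bb : ∀ i j, i ≠ j → b.repr (b j) i = 0 := fun i j h => by
    rw [b.repr_self, Finsupp.single_eq_of_ne h]
  have row : ∀ i j, ¬ lv i ≤ 0 → ∃ u t : T, u ∈ W1 ∧
      b.repr (Ψ (b j)) i = p * b.repr u i + p ^ 2 * b.repr t i := fun i j hi => by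
    obtain ⟨y, hy, z, hz, e⟩ := Submodule.mem_sup.1 (hΨ (b j))
    obtain ⟨y0, hy0, y1, hy1, rfl⟩ := Submodule.mem_sup.1 hy
    obtain ⟨u, hu, rfl⟩ := mem_sm.1 hy1
    obtain ⟨t, -, rfl⟩ := mem_sm.1 hz
    refine ⟨u, t, hu, ?_⟩
    rw [← e]
    simp [(w0 y0).1 hy0 i hi]
  have good : (model S b D Ψ lv par).Good (p : ZMod (p ^ S)) := by
    refine ⟨?_, fun i j h => ?_, fun i j h => ?_, fun i j h h' => ?_, fun i j h => ?_,
      fun i j h => ?_, fun z hz i hi => hz.1 i (by change lv i ≤ 1 at hi; omega), fun z hz => ?_,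
      fun z hz => ?_, fun x => ?_⟩
    · refine Matrix.mulVec_injective (funext fun y => ?_)
      obtain ⟨x, rfl, -⟩ := ex_lift S b y
      change (rho S b D * rho S b D) *ᵥ _ = _
      rw [← mulVec_mulVec, rho_mulVec, rho_mulVec, hDD, map_zero, zero_mulVec]
    · refine (rho_apply S b D i j).trans (red_zero S b ?_)
      have a := rε (D (b j)) i
      rw [hεD, hb, show par i = par j from h] at a
      simp only [map_smul, map_neg, Finsupp.neg_apply, Finsupp.smul_apply, smul_eq_mul] at a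
      split_ifs at a
      · exact add_self_eq_zero.1 (by linear_combination a)
      · exact add_self_eq_zero.1 (by linear_combination -a)
    · refine (rho_apply S b Ψ i j).trans (red_zero S b ?_)
      have a := rε (Ψ (b j)) i
      rw [hεΨ, hb] at a
      simp only [map_smul, Finsupp.smul_apply, smul_eq_mul] at a
      change par i ≠ par j at h
      split_ifs at a with k k' k'
      · exact absurd (k'.trans k.symm) h
      · exact add_self_eq_zero.1 (by linear_combination -a)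
      · exact add_self_eq_zero.1 (by linear_combination a)
      · exact absurd ((Bool.not_eq_true _ ▸ k').trans (Bool.not_eq_true _ ▸ k).symm) h
    · refine (rho_apply S b D i j).trans (red_zero S b ?_)
      change lv j ≤ 1 at h
      change lv j < lv i at h'
      rcases Nat.eq_zero_or_pos (lv j) with k | k
      · exact (w0 _).1 (d0 _ ((w0 _).2 fun l hl => bb l j (by rintro rfl; omega))) i (by omega)
      · exact (w1 _).1 (d1 _ ((w1 _).2 fun l hl => bb l j (by rintro rfl; omega))) i (by omega)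
    · change lv i = 1 at h
      obtain ⟨u, t, -, e⟩ := row i j (by omega)
      refine ⟨ph S (b.repr u i + p * b.repr t i), (rho_apply S b Ψ i j).trans ?_⟩
      change ph S _ = _
      rw [e]
      simp only [map_add, map_mul, map_pow, map_natCast]
      ring
    · change 2 ≤ lv i at h
      obtain ⟨u, t, hu, e⟩ := row i j (by omega)
      refine ⟨ph S (b.repr t i), (rho_apply S b Ψ i j).trans ?_⟩
      change ph S _ = _
      rw [e, (w1 u).1 hu i (by omega)]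
      simp
    · obtain ⟨x, rfl, -⟩ := ex_lift S b z
      refine ⟨hz.2, ?_⟩
      change rho S b D *ᵥ (rho S b D *ᵥ _) ∈ KS S lv
      rw [rho_mulVec, rho_mulVec, hDD, map_zero]
      exact zero_mem _
    · have key : ∀ y ∈ KS S lv, rho S b Ψ *ᵥ y ∈ KS S lv := fun y hy => by
        obtain ⟨x, rfl, hx⟩ := ex_lift S b y
        rw [rho_mulVec]
        exact rK _ (hK _ ((wK x).2 fun i hi => hx i (hy i hi)))
      refine ⟨key z hz.1, ?_⟩
      have a := key _ hz.2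
      obtain ⟨x, rfl, -⟩ := ex_lift S b z
      change rho S b Ψ *ᵥ (rho S b D *ᵥ _) ∈ KS S lv at a
      change rho S b D *ᵥ (rho S b Ψ *ᵥ _) ∈ KS S lv
      rw [rho_mulVec, rho_mulVec] at a ⊢
      have a2 := add_mem (rE x) a
      rwa [← map_add, sub_add_cancel] at a2
    · obtain ⟨x, rfl, -⟩ := ex_lift S b x
      have a : (rho S b D * rho S b Ψ - rho S b Ψ * rho S b D) *ᵥ red S b x =
          red S b (D (Ψ x) - Ψ (D x)) := by
        rw [sub_mulVec, ← mulVec_mulVec, ← mulVec_mulVec, rho_mulVec, rho_mulVec, rho_mulVec,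
          rho_mulVec, map_sub]
      change (rho S b D * rho S b Ψ - rho S b Ψ * rho S b D) *ᵥ red S b x ∈ _
      rw [a]
      refine ⟨rE x, ?_⟩
      change rho S b D *ᵥ _ ∈ KS S lv
      have a2 := neg_mem (rE (D x))
      rw [hDD, map_zero, sub_zero] at a2
      rwa [rho_mulVec, map_sub, hDD, zero_sub, map_neg]
  have hstr : ∀ k, (model S b D Ψ lv par).str k = ph S (LinearMap.trace ℤ_[p] T (ε ∘ₗ Ψ ^ k)) := by
    intro k
    rw [LinearMap.trace_eq_matrix_trace ℤ_[p] b, Matrix.trace, map_sum, MM.str]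
    refine Finset.sum_congr rfl fun i _ => ?_
    change (if par i then -1 else 1) * (rho S b Ψ ^ k) i i = _
    rw [rho_pow, rho_apply, diag_apply, LinearMap.toMatrix_apply, LinearMap.comp_apply, rε, map_mul]
    congr 1
    split_ifs <;> simp
  have hH0 : 1 ≤ S → ∀ e ∈ W0, ε e = e → (∀ x ∈ W0, D x ∈ sm (p : ℤ_[p]) W0 →
      ∃ c : ℤ_[p], ∃ z ∈ W0, x - c • e - D z ∈ sm (p : ℤ_[p]) W0) →
      (model S b D Ψ lv par).H0 (p : ZMod (p ^ S)) (red S b e) := by
    intro hS e he hee h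
    refine ⟨r0 e he, fun i hi => red_zero S b ?_, fun y hy hD => ?_⟩
    · have a := rε e i
      rw [hee, if_pos (show par i = true from hi)] at a
      exact add_self_eq_zero.1 (by linear_combination a)
    · obtain ⟨x, rfl, hx⟩ := ex_lift S b y
      have hx0 : x ∈ W0 := (w0 x).2 fun i hi => hx i ((mem_W _ _ _).1 hy i hi)
      change rho S b D *ᵥ _ ∈ _ at hD
      rw [rho_mulVec] at hD
      obtain ⟨c, z, hz, hm⟩ := h x hx0 (sm_of_red S b hS s0 (d0 x hx0) hD)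
      refine ⟨ph S c, red S b z, r0 z hz, ?_⟩
      change _ - _ - rho S b D *ᵥ _ ∈ _
      have a := red_sm S b r0 1 (by rw [pow_one]; exact hm)
      rwa [pow_one, map_sub, map_sub, map_smulₛₗ, ← rho_mulVec] at a
  intro e he hee h h1 hu hS k hk
  refine dvd_lift S ?_
  rw [← hstr]
  refine p2n _ (fun r => ?_) _ good (hH0 hS e he hee h) (fun y hy hev hD => ?_) ?_ k hk
  · rw [← ph_lf S r]
    rcases (PadicInt.norm_le_one (lf S r)).eq_or_lt with a | a
    · exact Or.inl ((PadicInt.isUnit_iff.2 a).map _)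
    · refine Or.inr ?_
      have a2 := map_dvd (ph S) ((PadicInt.norm_lt_one_iff_dvd _).1 a)
      rwa [map_natCast] at a2
  · obtain ⟨x, rfl, hx⟩ := ex_lift S b y
    have hx1 : x ∈ W1 := (w1 x).2 fun i hi => hx i ((mem_W _ _ _).1 hy i hi)
    have hxe : ε x = x := b.ext_elem fun i => by
      rw [rε]
      split_ifs with k
      · rw [hx i (hev i k), mul_zero]
      · rw [one_mul]
    change rho S b D *ᵥ _ ∈ _ at hD
    rw [rho_mulVec] at hD
    obtain ⟨z, hz, hm⟩ := h1 x hx1 hxe (sm_of_red S b hS s1 (d1 x hx1) hD)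
    refine ⟨red S b z, r1 z hz, ?_⟩
    change rho S b Ψ *ᵥ _ - _ • rho S b D *ᵥ _ ∈ _
    obtain ⟨y, hy, t, ht, e⟩ := Submodule.mem_sup.1 hm
    have a := congrArg (red S b) e
    rw [map_add, map_sub, map_smulₛₗ, map_natCast] at a
    rw [rho_mulVec, rho_mulVec, ← a]
    exact Submodule.add_mem_sup (r0 y hy) (red_sm S b (fun _ _ => Submodule.mem_top) 2 ht)
  · have a2 := map_dvd (ph S) hu
    rwa [map_natCast, ← pow_one Ψ, ← hstr] at a2

end

end Pool.Agent.MP_ea150c_mp.H20
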