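import Pool.Agent.MP_ea150c_mp.H20.DefsG
import Pool.Agent.MP_ea150c_mp.H49.Model

/-! From the graph polynomial to position space, and power counting: statements. -/

namespace Pool.Agent.MP_ea150c_mp.H20

open Matrix

noncomputable section

section Abstract
variable {F E : Type} [Field F] [Fintype F] [DecidableEq F] [Fintype E] [DecidableEq E]

/-- First coordinate on the projective line: `some a = [a : 1]`, `none = [1 : 0]`. -/
def al : Option F → F
  | some a => a
  | none => 1

/-- Second coordinate on the projective line. -/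
def te : Option F → F
  | some _ => 1
  | none => 0

/-- The number of pairs `(u, y)` with `α y = t u`. -/
def nsol (U Z : Submodule F (E → F)) (x : E → Option F) : ℕ :=
  Nat.card {y : U × Z // ∀ e, al (x e) * (y.2 : E → F) e = te (x e) * (y.1 : E → F) e}

/-- The indicator that only the trivial pair exists. -/
def zz (U Z : Submodule F (E → F)) (x : E → Option F) : ℤ := if nsol U Z x = 1 then 1 else 0

/-- Configurations in `X^(2j)` on which the split quadrics of the edges in `R` do not vanish. -/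
def NQ (j : ℕ) (X : Submodule F (E → F)) (R : Finset E) : ℕ :=
  Nat.card {y : Fin j → X × X //
    ∀ e ∈ R, ∑ i, ((y i).1 : E → F) e * ((y i).2 : E → F) e ≠ 0}

/-- `U` is the orthogonal complement of `Z`. -/
def Perp (U Z : Submodule F (E → F)) : Prop := ∀ u, u ∈ U ↔ ∀ y ∈ Z, u ⬝ᵥ y = 0

/-- The vectors of `X` that vanish on `D`. -/
def van (X : Submodule F (E → F)) (D : Finset E) : Submodule F (E → F) :=
  X ⊓ Submodule.pi (D : Set E) fun _ => ⊥

/-- The weight: delta at infinity on `D`, delta at zero on `C`, and `q [α = 0] - 1` elsewhere. -/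
def wa (C D : Finset E) (e : E) (x : Option F) : ℤ :=
  if e ∈ D then (if x = none then 1 else 0)
  else if e ∈ C then (if x = some 0 then 1 else 0)
  else if x = none then 0 else if x = some 0 then (Fintype.card F : ℤ) - 1 else -1

/-- Pairing of a product weight with a function. -/
def pair (ω : E → Option F → ℤ) (f : (E → Option F) → ℤ) : ℤ :=
  ∑ x : E → Option F, (∏ e, ω e (x e)) * f x

end Abstract

/-- The number of solutions as a character sum. -/
def SF1 : Prop := ∀ (F E : Type) [Field F] [Fintype F] [DecidableEq F] [Fintype E] [DecidableEq E]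
  (U Z : Submodule F (E → F)) (ψ : AddChar F ℂ) (D : Finset E) (α : E → F), ψ ≠ 1 → Perp U Z →
  (Nat.card Z : ℂ) * nsol U Z (fun e => if e ∈ D then none else some (α e)) =
    (Fintype.card F : ℂ) ^ D.card *
      ∑ᶠ y : van Z D × van Z D, ψ (∑ e, α e * ((y.1 : E → F) e * (y.2 : E → F) e))

/-- The Fourier lemma. -/
def SFour : Prop := ∀ (F E : Type) [Field F] [Fintype F] [DecidableEq F] [Fintype E] [DecidableEq E]
  (U Z : Submodule F (E → F)) (C D : Finset E) (j : ℕ), Perp U Z → Disjoint C D →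
  (Nat.card Z : ℤ) ^ j * pair (wa C D) (fun x => (nsol U Z x : ℤ) ^ j) =
    (Fintype.card F : ℤ) ^ (j * D.card + (C ∪ D)ᶜ.card) * NQ j (van Z D) (C ∪ D)ᶜ

def OfFour : Prop := SF1 → SFour

/-- Divisibility from a free action of the plane, and two facts on dimensions. -/
def SDiv : Prop := ∀ (F E : Type) [Field F] [Fintype F] [DecidableEq F] [Fintype E] [DecidableEq E]
  (X : Submodule F (E → F)),
  (∀ R, Fintype.card F ^ min 2 (Module.finrank F X) ∣ NQ 2 X R) ∧
  (∀ D : Finset E, Module.finrank F X ≤ Module.finrank F (van X D) + D.card) ∧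
  ∀ (U : Submodule F (E → F)) (x : E → Option F), ∃ c, nsol U X x = Fintype.card F ^ c

/-- Congruences in one chart. -/
def SAbsA : Prop := ∀ (F E : Type) [Field F] [Fintype F] [DecidableEq F] [Fintype E] [DecidableEq E]
  (U Z : Submodule F (E → F)) (m : ℕ), 3 ≤ m → Fintype.card E = 2 * m → Module.finrank F Z = m →
  Perp U Z →
  (∀ D : Finset E, D.Nonempty → (Fintype.card F : ℤ) ^ 3 ∣ pair (wa ∅ D) (zz U Z)) ∧
  (∀ (e : E) (D : Finset E), D.Nonempty → e ∉ D →
    (Fintype.card F : ℤ) ^ 2 ∣ pair (wa {e} D) (zz U Z)) ∧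
  (∀ C : Finset E, C.card = 2 → (Fintype.card F : ℤ) ∣ pair (wa C ∅) (zz U Z)) ∧
  (Fintype.card F : ℤ) ^ 3 ∣ pair (wa ∅ ∅) (zz U Z) - NQ 2 Z Finset.univ

def OfAbsA : Prop := SFour → SDiv → SAbsA

/-- The abstract congruence between parametric and position space. -/
def SAbs : Prop := ∀ (F E : Type) [Field F] [Fintype F] [DecidableEq F] [Fintype E] [DecidableEq E]
  (U Z : Submodule F (E → F)) (m : ℕ), 3 ≤ m → Fintype.card E = 2 * m → Module.finrank F U = m →
  Module.finrank F Z = m → Perp U Z → Perp Z U →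
  (Fintype.card F : ℤ) ^ 3 ∣
    (Nat.card {α : E → F // nsol U Z (fun e => some (α e)) = 1} : ℤ) - NQ 2 U Finset.univ

def OfAbs : Prop := SAbsA → SAbs

/-- Expansion of the network determinant. -/
def SBlk : Prop := ∀ (F E I : Type) [Field F] [Fintype E] [DecidableEq E] [Fintype I]
  [DecidableEq I] (B : Matrix E I F), ∃ g : Finset E → F,
  (∀ α : E → F, (fromBlocks (diagonal α) (-B) Bᵀ 0).det = ∑ T : Finset E, (∏ e ∈ Tᶜ, α e) * g T) ∧
  (∀ T : Finset E, T.card ≠ Fintype.card I → g T = 0) ∧
  ∀ (T : Finset E) (φ : I ≃ T), g T = (B.submatrix (fun i => (φ i : E)) id).det ^ 2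

/-- The reduced incidence matrix; the root is `none`. -/
def inc (R : Type) [CommRing R] {E I : Type} [DecidableEq I] (s t : E → Option I) : Matrix E I R :=
  Matrix.of fun e i => (if s e = some i then 1 else 0) - (if t e = some i then 1 else 0)

/-- Minors of the incidence matrix. -/
def STree : Prop := ∀ (F E I : Type) [Field F] [Fintype E] [DecidableEq E] [Fintype I]
  [DecidableEq I] (s t : E → Option I) (T : Finset E),
  (Conn s t T ↔ ∀ x : I → F, (∀ e ∈ T, (inc F s t *ᵥ x) e = 0) → x = 0) ∧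
  ∀ φ : I ≃ T, (Conn s t T → ((inc F s t).submatrix (fun i => (φ i : E)) id).det ^ 2 = 1) ∧
    (¬ Conn s t T → ((inc F s t).submatrix (fun i => (φ i : E)) id).det = 0)

/-- The matrix tree theorem for networks. -/
def SMT : Prop := ∀ (F E I : Type) [Field F] [Fintype F] [DecidableEq F] [Fintype E] [DecidableEq E]
  [Fintype I] [DecidableEq I] (s t : E → Option I), Conn s t Finset.univ → ∀ α : E → F,
  Psi s t α ≠ 0 ↔ nsol (LinearMap.range (inc F s t).mulVecLin)
    (LinearMap.ker (inc F s t)ᵀ.mulVecLin) (fun e => some (α e)) = 1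

def OfMT : Prop := SBlk → STree → SMT

/-- The point count of the graph hypersurface and the count in position space. -/
def SM : Prop := ∀ (I E : Type) [DecidableEq I] [Fintype I] [Fintype E] [DecidableEq E]
  (G : H49.PG I E), 3 ≤ Fintype.card I → Fintype.card E = 2 * Fintype.card I →
  Conn G.src G.tgt Finset.univ → ∀ (F : Type) [Field F] [Fintype F],
  (Fintype.card F : ℤ) ^ 3 ∣ (XG G.src G.tgt F : ℤ) + G.N4pos F ∧ Fintype.card F ^ 2 ∣ G.N4pos F

def OfM : Prop := SDiv → SAbs → STree → SMT → SM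

/-- Connected simple graphs with degrees three and four and `2 |V| - 2` edges. -/
structure GoodG {V E : Type} [Fintype V] [DecidableEq V] [Fintype E] [DecidableEq E]
    (s t : E → V) : Prop where
  conn : Conn s t Finset.univ
  noloop : ∀ e, s e ≠ t e
  simple : ∀ e e', s(s e, t e) = s(s e', t e') → e = e'
  degs : ∀ v, deg s t v = 3 ∨ deg s t v = 4
  card : Fintype.card E + 2 = 2 * Fintype.card V

/-- Choice of a root and relabelling of the vertices; invariance under isomorphism of fields. -/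
def STrans : Prop := ∀ (V E : Type) [Fintype V] [DecidableEq V] [Fintype E] [DecidableEq E]
  (s t : E → V),
  (GoodG s t → 5 ≤ Fintype.card V → ∃ (m : ℕ) (G : H49.PG (Fin m) E), G.Good ∧
    Fintype.card E = 2 * m ∧ Conn G.src G.tgt Finset.univ ∧
    ∀ (F : Type) [Field F], XG G.src G.tgt F = XG s t F) ∧
  ∀ (F F' : Type) [Field F] [Field F'], (F ≃+* F') → XG s t F = XG s t F'

/-- Existence of spanning trees, and the forest bound. -/
def SSpan : Prop := ∀ (V E : Type) [Fintype V] [DecidableEq V] [Fintype E] [DecidableEq E]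
  (s t : E → V),
  (∀ T, Nonempty V → Conn s t T → ∃ T' ⊆ T, IsTree s t T') ∧
  ∀ T (W : Finset V), IsTree s t T → W.Nonempty →
    (T.filter fun e => s e ∈ W ∧ t e ∈ W).card + 1 ≤ W.card

/-- Power counting: a necessary condition for convergence. -/
def SQ1 : Prop := ∀ (E : Type) [Fintype E] [DecidableEq E] (𝒯 : Finset (Finset E)) (e₀ : E),
  𝒯.Nonempty → MeasureTheory.IntegrableOn
    (fun α : {e : E // e ≠ e₀} → ℝ =>
      1 / (∑ T ∈ 𝒯, ∏ e ∈ Tᶜ, (if h : e = e₀ then 1 else α ⟨e, h⟩)) ^ 2) {α | ∀ e, 0 ≤ α e} →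
  ∀ a : E → ℤ, a e₀ = 0 → a ≠ 0 → ∃ T ∈ 𝒯, 2 * ∑ e ∈ Tᶜ, a e < ∑ e, a e

/-- Primitive graphs with degrees at most four are good. -/
def SQ : Prop := ∀ (V E : Type) [Fintype V] [DecidableEq V] [Fintype E] [DecidableEq E]
  (s t : E → V), 3 ≤ Fintype.card V → Conn s t Finset.univ → (∀ v, deg s t v ≤ 4) →
  Primitive s t → GoodG s t

def OfQ : Prop := SSpan → SQ1 → SQ

end

end Pool.Agent.MP_ea150c_mp.H20
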