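import Pool.Agent.MP_ea150c_mp.H20.SpecR
import Pool.Agent.MP_ea150c_mp.H20.SpecM

/-! The two geometric inputs, and the link between position space and the projective model. -/

namespace Pool.Agent.MP_ea150c_mp.H20

noncomputable section

/-- The counts of the degenerate models are divisible by `q`. -/
def SA0 : Prop := ∀ (p : ℕ) [Fact p.Prime], 7 ≤ p → ∀ (m : ℕ) (E : Type) [Fintype E]
  [DecidableEq E] (G : H49.PG (Fin m) E), G.Good → ∀ R S : Finset (Fin m), Disjoint R G.N0 →
  ¬ (R = ∅ ∧ S = Finset.univ) → ∀ k, 1 ≤ k → ∀ (F : Type) [Field F] [Fintype F],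
  Fintype.card F = p ^ k → (p : ℤ) ^ k ∣ (G.model R S).Tc F

/-- The gap condition for the counts of the main model. -/
def SGap : Prop := ∀ (p : ℕ) [Fact p.Prime], 7 ≤ p → ∀ (m : ℕ) (E : Type) [Fintype E]
  [DecidableEq E] (G : H49.PG (Fin m) E), G.Good → Conn G.src G.tgt Finset.univ →
  ∀ (F : ℕ → Type) [∀ k, Field (F k)] [∀ k, Fintype (F k)],
  (∀ k, 1 ≤ k → Fintype.card (F k) = p ^ k) →
  ¬ (p : ℤ) ∣ (G.model ∅ Finset.univ).Tc (F 1) →
  ∃ x : ℤ_[p], IsUnit x ∧
    H49.Gap p fun k => x ^ k * (((G.model ∅ Finset.univ).Tc (F k) : ℤ) : ℤ_[p])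

/-- Points upstairs with the property `P` at which no function of the model vanishes. -/
def cntAll {I τ ι : Type} (M : H49.Model I τ ι) (F : Type) [Field F]
    (P : (H49.Var I τ → F) → Prop) : ℕ :=
  Nat.card {x : H49.Var I τ → F //
    P x ∧ ∀ i, MvPolynomial.eval₂ (Int.castRingHom F) x (M.f i) ≠ 0}

/-- The count upstairs away from `c = 0` is `q^2` times the count of the quotient. -/
def SLa : Prop := ∀ (I τ ι : Type) [LinearOrder I] [Fintype I] [Fintype τ] [DecidableEq τ]
  (M : H49.Model I τ ι) (F : Type) [Field F] [Fintype F],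
  (∀ i (n n' : F) (x : H49.Var I τ → F),
    MvPolynomial.eval₂ (Int.castRingHom F) (H49.gshift n n' x) (M.f i) =
      MvPolynomial.eval₂ (Int.castRingHom F) x (M.f i)) →
  (cntAll M F (fun x => ∃ v, x (Sum.inl (v, 0)) ≠ 0) : ℤ) = (Fintype.card F : ℤ) ^ 2 * M.Tc F

/-- Invariance of the functions of a graph model, and the part `c = 0` of the count. -/
def SLb : Prop := ∀ (I E : Type) [DecidableEq I] [Fintype I] [Fintype E] [DecidableEq E]
  (G : H49.PG I E) (R S : Finset I) (F : Type) [Field F] [Fintype F],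
  (∀ i (n n' : F) (x : H49.Var I (H49.Ex R) → F),
    MvPolynomial.eval₂ (Int.castRingHom F) (H49.gshift n n' x) ((G.model R S).f i) =
      MvPolynomial.eval₂ (Int.castRingHom F) x ((G.model R S).f i)) ∧
  Fintype.card F ^ Fintype.card I ∣
    cntAll (G.model R S) F (fun x => ∀ v, x (Sum.inl (v, 0)) = 0)

/-- Inclusion and exclusion on the cones over the quadrics. -/
def SLc : Prop := ∀ (I E : Type) [DecidableEq I] [Fintype I] [Fintype E] [DecidableEq E]
  (G : H49.PG I E), (∀ e, G.src e ≠ G.tgt e) → ∀ (F : Type) [Field F] [Fintype F],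
  ((Fintype.card F : ℤ) - 1) ^ Fintype.card I * G.N4pos F =
    ∑ R ∈ G.N0ᶜ.powerset, ∑ S : Finset I,
      (-1) ^ (R.card + S.card) * (cntAll (G.model R S) F (fun _ => True) : ℤ)

end

end Pool.Agent.MP_ea150c_mp.H20
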