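import Pool.Agent.MP_ea150c_mp.H20.Dich

/-! No match with Weil numbers of weight at most one. -/

namespace Pool.Agent.MP_ea150c_mp.H20

open Polynomial H12

theorem weil_zero (p : ℕ) [Fact p.Prime] (w : ℕ) (hw1 : w < 2) (f : ℤ[X]) (hf : f.Monic)
    (hw : ∀ z ∈ f.aroots ℂ, ‖z‖ ^ 2 = (p : ℝ) ^ w) (a : ℕ → ℤ)
    (ha : ∀ k, 1 ≤ k → (a k : ℂ) = ps (f.aroots ℂ) k) (h : ∀ k, 1 ≤ k → (p : ℤ) ^ k ∣ a k) :
    f.natDegree = 0 := by
  classical
  have hp1 : (1 : ℝ) < p := by exact_mod_cast (Fact.out : p.Prime).one_lt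
  have : Algebra.IsAlgebraic ℚ Lq := AlgebraicClosure.isAlgebraic ℚ
  let φ : Lq →ₐ[ℚ] ℂ := IsAlgClosed.lift
  let ψ : Lq →ₐ[ℚ] Kp p := IsAlgClosed.lift
  have hφ : Function.Injective φ := (φ : Lq →+* ℂ).injective
  have hrC : f.aroots ℂ = (f.aroots Lq).map φ := aroots_map_hom (φ : Lq →+* ℂ) f
  have hrK : f.aroots (Kp p) = (f.aroots Lq).map ψ := aroots_map_hom (ψ : Lq →+* Kp p) f
  have hexp := H86.sExp (Kp p) (f.aroots (Kp p)).toFinset
    (fun β => ((f.aroots (Kp p)).count β : Kp p)) 1 ((p : ℝ)⁻¹) 1 (by positivity) fun k hk => by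
      have h1 : (a k : Lq) = ps (f.aroots Lq) k := hφ (by
        rw [map_intCast, ha k hk, hrC]
        exact ps_map (φ : Lq →+* ℂ) _ k)
      have h2 := ps_map (ψ : Lq →+* Kp p) (f.aroots Lq) k
      rw [← h1, map_intCast, ← map_intCast (algebraMap ℚ_[p] (Kp p))] at h2
      rw [← ps_eq_sum _ _ le_rfl, hrK]
      refine (congrArg norm h2).trans_le ?_
      rw [PadicAlgCl.norm_extends p, one_mul, inv_pow, ← zpow_natCast, ← zpow_neg]
      exact (Padic.norm_int_le_pow_iff_dvd _ _).2 (h k hk)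
  have hb : ∀ θ ∈ f.aroots Lq, ‖ψ θ‖ ≤ (p : ℝ)⁻¹ := fun θ hθ => not_lt.1 fun hn => by
    have h1 : ψ θ ∈ f.aroots (Kp p) := hrK ▸ Multiset.mem_map_of_mem _ hθ
    exact Multiset.count_ne_zero.2 h1 (Nat.cast_eq_zero.1 (hexp _ (Multiset.mem_toFinset.2 h1) hn))
  by_contra hd
  obtain ⟨θ, hθ⟩ : ∃ θ, θ ∈ f.aroots Lq := Multiset.card_pos_iff_exists_mem.1 (by
    rw [IsAlgClosed.card_aroots_eq_natDegree]; omega)
  have hz : ‖φ θ‖ ^ 2 = (p : ℝ) ^ w := hw _ (hrC ▸ Multiset.mem_map_of_mem _ hθ)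
  have hθ0 : θ ≠ 0 := by
    rintro rfl
    rw [map_zero, norm_zero, zero_pow two_ne_zero] at hz
    exact (by positivity : (0 : ℝ) < p ^ w).ne hz
  have hc : (starRingEnd ℂ) (φ θ) = φ ((p : Lq) ^ w / θ) := by
    rw [map_div₀, map_pow, map_natCast, eq_div_iff ((map_ne_zero φ).2 hθ0), Complex.conj_mul']
    exact_mod_cast hz
  have h1 : aeval (φ θ) f = 0 := by
    have := aeval_algHom_apply (φ : Lq →+* ℂ).toIntAlgHom θ f
    rwa [(mem_aroots.1 hθ).2, map_zero] at this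
  have h2 := aeval_conj (R := ℤ) (fun r => by simp) _ _ h1
  rw [hc] at h2
  have h3 := hb ((p : Lq) ^ w / θ) (mem_aroots.2 ⟨hf.ne_zero, hφ (by
    rw [map_zero, ← h2]
    exact (aeval_algHom_apply (φ : Lq →+* ℂ).toIntAlgHom _ f).symm)⟩)
  have h4 := mul_le_mul h3 (hb θ hθ) (norm_nonneg _) (by positivity)
  rw [← norm_mul, ← map_mul, div_mul_cancel₀ _ hθ0, map_pow, map_natCast, norm_pow,
    ← map_natCast (algebraMap ℚ_[p] (Kp p)), PadicAlgCl.norm_extends p, Padic.norm_p, ← sq] at h4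
  exact (pow_lt_pow_right_of_lt_one₀ (by positivity) (inv_lt_one_of_one_lt₀ hp1) hw1).not_ge h4

variable {V E : Type} [Fintype V] [DecidableEq V] [Fintype E] [DecidableEq E] (s t : E → V)

theorem weil (h3 : 3 ≤ Fintype.card V) (hc : Conn s t Finset.univ)
    (h4 : ∀ v, deg s t v ≤ 4) (hP : Primitive s t) (p : ℕ) (hp : p.Prime) (h7 : 7 ≤ p) (w : ℕ)
    (f : ℤ[X]) (hf : f.Monic) (hw : ∀ z ∈ f.aroots ℂ, ‖z‖ ^ 2 = (p : ℝ) ^ w)
    (h : ∀ j, 1 ≤ j → ∀ (F : Type) [Field F] [Fintype F], Fintype.card F = p ^ j →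
      ∃ z : ℤ, (c2 s t F : ℂ) + ((f.aroots ℂ).map (· ^ j)).sum = (p : ℂ) ^ j * z) :
    2 ≤ w ∨ f.natDegree = 0 ∨ (w = 0 ∧ f.natDegree = 1) := by
  have : Fact p.Prime := ⟨hp⟩
  let _ := fun k => Fintype.ofFinite (GaloisField p k)
  have h5 : ∀ j, ∃ S : ℤ, (S : ℂ) = ((f.aroots ℂ).map (· ^ j)).sum ∧
      (1 ≤ j → (p : ℤ) ^ j ∣ c2 s t (GaloisField p j) + S) := fun j => by
    rcases Nat.eq_zero_or_pos j with rfl | hj
    · exact ⟨(f.aroots ℂ).card, by simp, by omega⟩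
    obtain ⟨z, hz⟩ := h j hj _ (card_gf p j hj)
    exact ⟨p ^ j * z - c2 s t (GaloisField p j), by push_cast; linear_combination -hz,
      fun _ => ⟨z, by ring⟩⟩
  choose S hS hdv using h5
  by_contra hn
  push Not at hn
  by_cases hu : (p : ℤ) ∣ S 1
  · have h1 : (p : ℤ) ∣ c2 s t (ZMod p) := by
      rw [c2_congr s t _ (GaloisField p 1) (by rw [card_gf p 1 le_rfl, pow_one, ZMod.card])]
      exact (dvd_add_left hu).1 (by simpa using hdv 1 le_rfl)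
    exact hn.2.1 (weil_zero p w hn.1 f hf hw S (fun k _ => hS k) fun k hk =>
      (dvd_add_right (non_unit s t h3 hc h4 hP p h7 h1 k hk _ (card_gf p k hk))).1 (hdv k hk))
  · obtain ⟨k, hk, h1⟩ := no_weil s t H49.allA0 H49.aSGap h3 hc h4 hP p h7 f hf S hS (by
      rcases Nat.eq_zero_or_pos w with rfl | h0
      · refine Or.inr ⟨fun z hz => ?_, hn.2.2 rfl⟩
        exact (pow_eq_one_iff_of_nonneg (norm_nonneg _) two_ne_zero).1 (by simpa using hw z hz)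
      · obtain rfl : w = 1 := by omega
        exact Or.inl fun z hz => by simpa using hw z hz) hu
    exact h1 (hdv k hk)

end Pool.Agent.MP_ea150c_mp.H20
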